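import Pool.Agent.H20.ZO.Def
import Pool.Agent.H20.RT.Hdr
import Pool.Agent.H24.VP.PosB
import Pool.Agent.H32.ZO.Hod

/-!
# [H20 ZO F0B] THEOREM Z0 (MP_e49dc9_ag): the class `F` from a family of surfaces

`f0b`: infinitely many prime divisors `D i` with the same intersection numbers, `T(N,D 0,D 0) = 0`, `Finb`: then `Fcl T A N (D 0)`.
PROOF.  `T(N,D 0,S) = T(N,D i,S) ≥ 0` for a prime `S`: choose `i` with `D i ≠ S`.  `T(N,A,D 0) > 0`: otherwise all `D i` have `T(N,A,D i) = 0`, against `Finb`.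
-/

set_option autoImplicit false

namespace Pool.Agent.H20.ZO

open Pool.Agent.H54.RV Pool.Agent.H83.TU Pool.Agent.H83.TK Pool.Agent.H20.TD Pool.Agent.H20.TP
open Pool.Agent.H24.VP (RR chS chi)

variable {k K : Type} [Field k] [Field K] [Algebra k K] {X : Mod k K}
  {T : Cart X → Cart X → Cart X → ℝ} {l : Cart X → ℝ} {c : ℝ}

theorem f0b [CharZero k] [IsAlgClosed k] [T0Space X.P] (h : Hyp X) (hr : RR T l c) {A N : Cart X} (hZ : Zn T l A N)
    (hfin : Finb T A N) {D : ℕ → Cart X} {P : ℕ → PDiv X} (hP : ∀ i j, (P i).η = (P j).η → i = j)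
    (hD : ∀ i, SPr X (P i).η (D i)) (hT : ∀ i U V, T (D i) U V = T (D 0) U V) (h0 : T N (D 0) (D 0) = 0) :
    Fcl T A N (D 0) := by
  have e1 : ∀ i U V, T U (D i) V = T U (D 0) V := fun i U V => by rw [hr.tri.s12, hT, hr.tri.s12]
  have e2 : ∀ i U V, T U V (D i) = T U V (D 0) := fun i U V => by rw [hr.tri.s23, e1, hr.tri.s23]
  refine ⟨fun P' S hS => ?_, h0, ?_⟩
  · obtain ⟨i, hi⟩ : ∃ i, (P i).η ≠ P'.η := by
      by_contra hc
      push Not at hc
      exact absurd (hP 0 1 ((hc 0).trans (hc 1).symm)) (by decide)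
    have := Pool.Agent.H32.ZO.nn_twoN h hr hZ.nef (P i) P' (hD i) hS hi
    rwa [e1] at this
  · have h1 : 0 ≤ T N A (D 0) := Pool.Agent.H24.VP.nn_prm h hr hZ.nef hZ.amp (P 0) (hD 0)
    refine lt_of_le_of_ne h1 fun h2 => ?_
    have h3 := hfin (T (D 0) A A)
    have h4 : (Set.range fun i => (P i).η) ⊆
        {z : X.P | ∃ P : PDiv X, P.η = z ∧ ∃ S : Cart X, SPr X z S ∧ T N A S = 0 ∧ T S A A ≤ T (D 0) A A} := by
      rintro z ⟨i, rfl⟩
      exact ⟨P i, rfl, D i, hD i, by rw [e2, ← h2], by rw [hT]⟩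
    exact Set.infinite_range_of_injective (fun i j hij => hP i j hij) (h3.subset h4)

end Pool.Agent.H20.ZO
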