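import Pool.Agent.H61.ZO.FC

/-!
# [H20 ZO F0C] THEOREM Z0 (MP_e49dc9_ag): the class `F` from a covering family of curves (helper61: H61/ZO)

`f0c`: `F'` a field between `k` and `K`, algebraically closed in `K`, `trdeg K / F' = 1`, `N` of degree `0` on the curve over `F'` with
function field `K`, `Finb`: there is a class `F`.
-/

set_option autoImplicit false

namespace Pool.Agent.H20.ZO

open Pool.Agent.H54.RV Pool.Agent.H83.TU Pool.Agent.H83.TK Pool.Agent.H20.TD Pool.Agent.H20.TP Pool.Agent.H39.TQ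
open Pool.Agent.H24.VP (RR chS chi)

variable {k K : Type} [Field k] [Field K] [Algebra k K] {X : Mod k K}
  {T : Cart X → Cart X → Cart X → ℝ} {l : Cart X → ℝ} {c : ℝ}

theorem f0c [CharZero k] [IsAlgClosed k] [T0Space X.P] (h : Hyp X) (hr : RR T l c) {A N : Cart X} (hZ : Zn T l A N)
    (hfin : Finb T A N) (F' : IntermediateField k K) (htr : Algebra.trdeg F' K = 1) (hc : Clo F')
    (hR : RF h.var h.gen F' N = 0) : ∃ F, Fcl T A N F := by
  obtain ⟨F, hF, -⟩ := Pool.Agent.H61.ZO.f0c h hr hZ hfin F' htr hc hR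
  exact ⟨F, hF⟩

end Pool.Agent.H20.ZO
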