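import Pool.Agent.H20.ZO.Def
import Pool.Agent.H32.ZO.Hod
import Pool.Agent.H20.RT.RayF
import Pool.Agent.H83.RT.Nz

/-!
# [H20 ZO Fin] THEOREM Z0 (MP_e49dc9_ag): infinitely many numerically equal prime divisors

`fam_of`: `¬ Finb T A N`: there are infinitely many prime divisors `D i` with the same class, `cR N = c cR (D 0)`, `c > 0`.
PROOF.  Infinitely many primes `S` with `T(N,A,S) = 0`, `T(S,A,A) ≤ B`; `v = cR S - s cR N`, `s = T(A,A,S) / T(A,A,N)`: `T(A,A,v) = 0`.  For two different ones `T(A,v,v') = T(A,S,S') ≥ 0`.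
By the index theorem `T(A,v,v) < 0` if `v ≠ 0`.  If infinitely many `v` are not zero then the `v / |v|` have a limit point `u ≠ 0` with `T(A,u,u) ≥ 0`: contradiction (`acc`).  So `v = 0` for
infinitely many `S`, the classes are on a bounded part of the ray of `N`, integral: finitely many.
-/

set_option autoImplicit false

namespace Pool.Agent.H20.ZO

open Pool.Agent.H54.RV Pool.Agent.H83.TU Pool.Agent.H83.TK Pool.Agent.H20.TD Pool.Agent.H20.TP Pool.Agent.H20.RT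
open Pool.Agent.H24.VP (RR chS chi)
open Filter Topology

variable {k K : Type} [Field k] [Field K] [Algebra k K] {X : Mod k K} {r : ℕ}
  {ν : Cart X →* Multiplicative (Fin r → ℤ)}
  {T : Cart X → Cart X → Cart X → ℝ} {l₀ : Cart X → ℝ} {c : ℝ} {TR : Tri3 r}

/-- infinitely many vectors with pairwise nonnegative products in a negative definite space -/
theorem acc {a : Fin r → ℝ} (hdef : ∀ x, TR a a x = 0 → 0 ≤ TR a x x → x = 0) {v : ℕ → Fin r → ℝ}
    (h0 : ∀ i, v i ≠ 0) (hf : ∀ i, TR a a (v i) = 0) (hb : ∀ i j, i ≠ j → 0 ≤ TR a (v i) (v j)) : False := by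
  obtain ⟨u, hu⟩ : ∃ u : ℕ → Fin r → ℝ, u = fun i => ‖v i‖⁻¹ • v i := ⟨_, rfl⟩
  have hn : ∀ i, 0 < ‖v i‖ := fun i => norm_pos_iff.2 (h0 i)
  have hus : ∀ i, u i ∈ Metric.sphere (0 : Fin r → ℝ) 1 := by
    intro i
    rw [hu, mem_sphere_zero_iff_norm, norm_smul, norm_inv, norm_norm, inv_mul_cancel₀ (hn i).ne']
  obtain ⟨x, hx, φ, hφ, hlim⟩ := (isCompact_sphere (0 : Fin r → ℝ) 1).tendsto_subseq hus
  have hx0 : x ≠ 0 := by
    rintro rfl
    rw [mem_sphere_zero_iff_norm, norm_zero] at hx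
    exact zero_ne_one hx
  have h1 : TR a a x = 0 := by
    have h2 : Tendsto (fun i => TR a a (u (φ i))) atTop (𝓝 (TR a a x)) :=
      ((cont3' TR (f := fun _ => a) (g := fun _ => a) (e := fun y => y) continuous_const continuous_const
        continuous_id).tendsto x).comp hlim
    have h3 : (fun i => TR a a (u (φ i))) = fun _ => (0 : ℝ) := funext fun i => by
      rw [hu, map_smul, hf, smul_zero]
    rw [h3] at h2
    exact (tendsto_nhds_unique h2 tendsto_const_nhds)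
  have h2 : 0 ≤ TR a x x := by
    have h3 : Tendsto (fun i => u (φ (i + 1))) atTop (𝓝 x) := hlim.comp (tendsto_add_atTop_nat 1)
    have h4 : Tendsto (fun i => TR a (u (φ i)) (u (φ (i + 1)))) atTop (𝓝 (TR a x x)) := by
      have h5 : Continuous fun y : (Fin r → ℝ) × (Fin r → ℝ) => TR a y.1 y.2 :=
        (cont3 TR).comp (continuous_const.prodMk continuous_id)
      exact (h5.tendsto (x, x)).comp (hlim.prodMk_nhds h3)
    refine ge_of_tendsto' h4 fun i => ?_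
    have h6 := hb (φ i) (φ (i + 1)) (hφ (Nat.lt_succ_self i)).ne
    rw [hu]
    simp only [map_smul, LinearMap.smul_apply, smul_eq_mul]
    have := (hn (φ i)).le
    have := (hn (φ (i + 1))).le
    positivity
  exact hx0 (hdef x h1 h2)

theorem hdef_of [CharZero k] [IsAlgClosed k] [T0Space X.P] (h : Hyp X) (hr : RR T l₀ c) (hν : NumR ν)
    (hT : ∀ U V W, TR (cR ν U) (cR ν V) (cR ν W) = T U V W) {A : Cart X} (hA : Ample A)
    (h3 : 0 < TR (cR ν A) (cR ν A) (cR ν A)) (x : Fin r → ℝ) (h1 : TR (cR ν A) (cR ν A) x = 0)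
    (h2 : 0 ≤ TR (cR ν A) x x) : x = 0 := by
  have hAC : cR ν A ∈ closure (CC ν) := subset_closure (cc_amp h.var hν hA)
  have h4 := hi_real h hr hν hT hAC (L := cR ν A) (v := x) h3
  rw [h1, zero_pow two_ne_zero] at h4
  have h5 : TR (cR ν A) x x = 0 := by
    refine le_antisymm ?_ h2
    by_contra hcon
    push Not at hcon
    have := mul_pos h3 hcon
    linarith
  have h6 : ∀ w, TR (cR ν A) x w = 0 := fun w => hd_eq h hr hν hT hAC (L := cR ν A) h3
    (by rw [tr_s23 hr hν hT]; exact h1) h5 w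
  exact Pool.Agent.H83.RT.num_zero h hr hν hT fun y hy => curves_zero h hr hν hT hA
    (fun w => by rw [tr_s12 hr hν hT]; exact h6 w) (by rw [tr_s23 hr hν hT, tr_s12 hr hν hT]; exact h5) hy

theorem fam_of [CharZero k] [IsAlgClosed k] [T0Space X.P] (h : Hyp X) (hr : RR T l₀ c) (hν : NumR ν)
    (hT : ∀ U V W, TR (cR ν U) (cR ν V) (cR ν W) = T U V W) {A N : Cart X} (hZ : Zn T l₀ A N)
    (hfin : ¬ Finb T A N) :
    ∃ D : ℕ → Cart X, (∃ P : ℕ → PDiv X, (∀ i j, (P i).η = (P j).η → i = j) ∧ ∀ i, SPr X (P i).η (D i)) ∧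
      (∀ i, cR ν (D i) = cR ν (D 0)) ∧ ∃ s : ℝ, 0 < s ∧ cR ν N = s • cR ν (D 0) := by
  have hAA : 0 < TR (cR ν A) (cR ν A) (cR ν A) := by
    rw [hT]
    exact Pool.Agent.H24.VP.pos_amp h hr hZ.amp hZ.amp hZ.amp
  have hNfA : Pool.Agent.H24.VP.Nf A := fun B hB => ample_mul h.var B A hB hZ.amp
  unfold Finb at hfin
  push Not at hfin
  obtain ⟨B, hB⟩ := hfin
  have hsel : ∀ z : {z : X.P | ∃ P : PDiv X, P.η = z ∧ ∃ S : Cart X, SPr X z S ∧ T N A S = 0 ∧ T S A A ≤ B},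
      ∃ (P : PDiv X) (S : Cart X), P.η = z ∧ SPr X P.η S ∧ T N A S = 0 ∧ T S A A ≤ B := by
    rintro ⟨z, P, hPz, S, hS, h1, h2⟩
    exact ⟨P, S, hPz, by rw [hPz]; exact hS, h1, h2⟩
  choose P S hPz hS hα hdeg using hsel
  haveI hinf : Infinite {z : X.P | ∃ P : PDiv X, P.η = z ∧ ∃ S : Cart X, SPr X z S ∧ T N A S = 0 ∧ T S A A ≤ B} :=
    Set.infinite_coe_iff.2 hB
  obtain ⟨Z, hZe⟩ : ∃ Z : Set X.P, Z = {z : X.P | ∃ P : PDiv X, P.η = z ∧ ∃ S : Cart X, SPr X z S ∧ T N A S = 0 ∧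
    T S A A ≤ B} := ⟨_, rfl⟩
  rw [← hZe] at hinf
  revert P S hPz hS hα hdeg
  rw [← hZe]
  intro P S hPz hS hα hdeg
  have hη : ∀ z z' : Z, z ≠ z' → (P z).η ≠ (P z').η := by
    intro z z' hne h1
    rw [hPz, hPz] at h1
    exact hne (Subtype.ext h1)
  obtain ⟨t, ht⟩ : ∃ t, t = T N A A := ⟨_, rfl⟩
  have ht0 : 0 < t := by rw [ht]; exact hZ.pos
  have e1 : TR (cR ν A) (cR ν A) (cR ν N) = t := by
    rw [hT, hr.tri.s23, hr.tri.s12, ht]
  have e2 : ∀ z, TR (cR ν A) (cR ν A) (cR ν (S z)) = T (S z) A A := fun z => by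
    rw [hT, hr.tri.s23, hr.tri.s12]
  have e3 : ∀ z, TR (cR ν A) (cR ν N) (cR ν (S z)) = 0 := fun z => by
    rw [hT, hr.tri.s12, hα]
  have e4 : TR (cR ν A) (cR ν N) (cR ν N) = 0 := by
    rw [hT, hr.tri.s12, hr.tri.s23, hZ.sq]
  have e5 : ∀ z, TR (cR ν A) (cR ν (S z)) (cR ν N) = 0 := fun z => by
    rw [hT, hr.tri.s23, hr.tri.s12]
    exact hα z
  obtain ⟨v, hv⟩ : ∃ v : Z → Fin r → ℝ, v = fun z => cR ν (S z) - (T (S z) A A / t) • cR ν N := ⟨_, rfl⟩
  have v1 : ∀ z, TR (cR ν A) (cR ν A) (v z) = 0 := by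
    intro z
    rw [hv, map_sub, map_smul, e1, e2, smul_eq_mul, div_mul_cancel₀ _ ht0.ne', sub_self]
  have v2 : ∀ z z', z ≠ z' → 0 ≤ TR (cR ν A) (v z) (v z') := by
    intro z z' hne
    have h1 := Pool.Agent.H32.ZO.nn_twoN h hr hNfA (P z) (P z') (hS z) (hS z') (hη z z' hne)
    rw [← hT] at h1
    rw [hv]
    simp only [map_sub, map_smul, LinearMap.sub_apply, LinearMap.smul_apply, smul_eq_mul]
    rw [e3, e4, e5]
    linarith
  have hvz : ∀ z, v z = 0 → cR ν (S z) = (T (S z) A A / t) • cR ν N := by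
    intro z hz
    rw [hv] at hz
    exact sub_eq_zero.1 hz
  have hdef := hdef_of h hr hν hT hZ.amp hAA
  have hfinv : {z : Z | v z ≠ 0}.Finite := by
    by_contra hcon
    have hcon' : {z : Z | v z ≠ 0}.Infinite := hcon
    let φ := hcon'.natEmbedding
    refine acc hdef (v := fun i => v (φ i).1) (fun i => (φ i).2) (fun i => v1 _) fun i j hij => v2 _ _ ?_
    intro h1
    exact hij (φ.injective (Subtype.ext h1))
  haveI : Infinite {z : Z | v z = 0} := by
    rw [Set.infinite_coe_iff]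
    have h1 : {z : Z | v z = 0} = {z : Z | v z ≠ 0}ᶜ := by
      ext z
      simp
    rw [h1]
    exact hfinv.infinite_compl
  obtain ⟨M, hM⟩ := exists_nat_ge (B / t * ‖cR ν N‖)
  have hpos : ∀ z, 0 < T (S z) A A := by
    intro z
    have h1 := Pool.Agent.H24.VP.pos_prm h hr hZ.amp hZ.amp (P z) (hS z)
    rwa [hr.tri.s23, hr.tri.s12] at h1
  have hbd : ∀ z : {z : Z | v z = 0}, ci ν (S z.1) ∈ Set.Icc (fun _ : Fin r => -(M : ℤ)) (fun _ => (M : ℤ)) := by
    rintro ⟨z, hz⟩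
    have h1 := hvz z hz
    have h2 : ∀ i, |((ci ν (S z) i : ℤ) : ℝ)| ≤ M := by
      intro i
      have h3 : ((ci ν (S z) i : ℤ) : ℝ) = (T (S z) A A / t) * cR ν N i := by
        have h4 := congrFun h1 i
        rw [Pi.smul_apply, smul_eq_mul] at h4
        exact h4
      rw [h3, abs_mul, abs_of_pos (div_pos (hpos z) ht0)]
      have h5 : |cR ν N i| ≤ ‖cR ν N‖ := by
        rw [← Real.norm_eq_abs]
        exact norm_le_pi_norm _ i
      have h6 : T (S z) A A / t ≤ B / t := div_le_div_of_nonneg_right (hdeg z) ht0.le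
      exact (mul_le_mul h6 h5 (abs_nonneg _) ((div_pos (hpos z) ht0).le.trans h6)).trans hM
    refine ⟨fun i => ?_, fun i => ?_⟩
    · have := (abs_le.1 (h2 i)).1
      show -(M : ℤ) ≤ ci ν (S z) i
      exact_mod_cast this
    · have := (abs_le.1 (h2 i)).2
      show ci ν (S z) i ≤ (M : ℤ)
      exact_mod_cast this
  haveI : Finite (Set.Icc (fun _ : Fin r => -(M : ℤ)) (fun _ => (M : ℤ))) := (Set.finite_Icc _ _).to_subtype
  obtain ⟨w, hw⟩ := Finite.exists_infinite_fiber (fun z : {z : Z | v z = 0} =>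
    (⟨ci ν (S z.1), hbd z⟩ : Set.Icc (fun _ : Fin r => -(M : ℤ)) (fun _ => (M : ℤ))))
  have hw' := Set.infinite_coe_iff.1 hw
  let φ := hw'.natEmbedding
  have hcl : ∀ i, ci ν (S (φ i).1.1) = w.1 := fun i => congrArg Subtype.val (φ i).2
  refine ⟨fun i => S (φ i).1.1, ⟨fun i => P (φ i).1.1, fun i j hij => ?_, fun i => hS _⟩, fun i => ?_, ?_⟩
  · by_contra hne
    refine hη (φ i).1.1 (φ j).1.1 (fun h1 => hne ?_) hij
    exact φ.injective (Subtype.ext (Subtype.ext h1))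
  · show rv (ci ν (S (φ i).1.1)) = rv (ci ν (S (φ 0).1.1))
    rw [hcl, hcl]
  · have h2 := hvz (φ 0).1.1 (φ 0).1.2
    refine ⟨(T (S (φ 0).1.1) A A / t)⁻¹, inv_pos.2 (div_pos (hpos _) ht0), ?_⟩
    show cR ν N = (T (S (φ 0).1.1) A A / t)⁻¹ • cR ν (S (φ 0).1.1)
    rw [h2, smul_smul, inv_mul_cancel₀ (div_pos (hpos _) ht0).ne', one_smul]

end Pool.Agent.H20.ZO
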