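import Pool.Agent.H20.ZO.End
import Pool.Agent.H20.ZO.F0B
import Pool.Agent.H20.ZO.F0C
import Pool.Agent.H20.RT.RayF
import Pool.Agent.H32.TN.Int
import Pool.Agent.H83.RT.Nz
import Pool.Agent.H20.ZO.Fin

/-!
# [H20 ZO Asm] THEOREM Z0 (MP_e49dc9_ag): the assembly

`not_finb`: `N` nef integral, `T(N,N,.) = 0`, `l N > 0`: for some `B` infinitely many prime divisors `S` have `T(N,A,S) = 0` and `T(S,A,A) ≤ B`.
`z0`: THEOREM Z0: infinitely many prime divisors `D i` of the same class, `cR N = s cR (D 0)`, `s > 0`.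
PROOF.  THEOREM Z (`z_bc`): a family of surfaces or a covering family of curves, so a class `F` (`f0b`, `f0c`) or `Finb` is false; `fin_false`.
-/

set_option autoImplicit false

namespace Pool.Agent.H20.ZO

open Pool.Agent.H54.RV Pool.Agent.H83.TU Pool.Agent.H83.TK Pool.Agent.H20.TD Pool.Agent.H20.TP Pool.Agent.H20.RT
open Pool.Agent.H24.VP (RR chS chi)
open Pool.Agent.H39.TZ (FamB FamC)

variable {k K : Type} [Field k] [Field K] [Algebra k K] {X : Mod k K} {r : ℕ}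
  {ν : Cart X →* Multiplicative (Fin r → ℤ)}
  {T : Cart X → Cart X → Cart X → ℝ} {l₀ : Cart X → ℝ} {c : ℝ} {TR : Tri3 r}

theorem zn_of [CharZero k] [IsAlgClosed k] [T0Space X.P] (h : Hyp X) (hr : RR T l₀ c) (hν : NumR ν)
    (hT : ∀ U V W, TR (cR ν U) (cR ν V) (cR ν W) = T U V W) {l : (Fin r → ℝ) →ₗ[ℝ] ℝ} (hl : ∀ D, l (cR ν D) = l₀ D)
    {A N : Cart X} (hA : Ample A) (hN : cR ν N ∈ closure (AmpR ν)) (hsq : ∀ U, T N N U = 0) (hpos : 0 < l₀ N) :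
    Zn T l₀ A N := by
  have hpC : cR ν N ∈ closure (CC ν) := by rwa [← cl_eq h.var hν]
  have hpp : TR (cR ν N) (cR ν N) = 0 := ext_uniq hν fun U => by rw [hT, hsq, LinearMap.zero_apply]
  have hp0 : cR ν N ≠ 0 := by
    intro h1
    have h2 := hl N
    rw [h1, map_zero] at h2
    linarith
  have hAC : cR ν A ∈ closure (CC ν) := subset_closure (cc_amp h.var hν hA)
  refine ⟨hA, Pool.Agent.H39.TZ.nf_of_cl h.var hν hN, hsq, ?_, hpos⟩
  rw [← hT]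
  rcases (tr_nn h hr hν hT hpC hAC hAC).eq_or_lt with h1 | h1
  · have h2 := pq_zero h hr hν hT hA hpC hAC h1.symm
    exact (hp0 (Pool.Agent.H83.RT.num_zero h hr hν hT fun x hx => curves_zero h hr hν hT hA
      (fun u => by rw [h2, LinearMap.zero_apply]) (by rw [hpp, LinearMap.zero_apply]) hx)).elim
  · exact h1

theorem not_finb [CharZero k] [IsAlgClosed k] [T0Space X.P] (h : Hyp X) (hr : RR T l₀ c) (hν : NumR ν)
    (hT : ∀ U V W, TR (cR ν U) (cR ν V) (cR ν W) = T U V W) {l : (Fin r → ℝ) →ₗ[ℝ] ℝ} (hl : ∀ D, l (cR ν D) = l₀ D)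
    {A N : Cart X} (hA : Ample A) (hN : cR ν N ∈ closure (AmpR ν)) (hsq : ∀ U, T N N U = 0) (hpos : 0 < l₀ N) :
    ¬ Finb T A N := by
  intro hfin
  have hZ := zn_of h hr hν hT hl hA hN hsq hpos
  rcases Pool.Agent.H32.TN.z_bc h hν hr hT hl hN (by rw [hl]; exact hpos) with h4 | h4 | h4
  · rw [hT, hsq] at h4
    exact lt_irrefl _ h4
  · obtain ⟨F, ⟨P, hP, hS⟩, hnum, -, hpf⟩ := h4
    rw [hT] at hpf
    exact fin_false h hr hν hZ hfin (f0b h hr hZ hfin hP hS (fun i U V => by rw [← hT, hnum, hT]) hpf)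
  · obtain ⟨-, hX, hg, F, R, htr, hcl, hR, hRp⟩ := h4
    rw [hR] at hRp
    obtain ⟨F', hF'⟩ := f0c h hr hZ hfin F htr hcl (by exact_mod_cast hRp)
    exact fin_false h hr hν hZ hfin hF'

/-- **THEOREM Z0** -/
theorem z0 [CharZero k] [IsAlgClosed k] [T0Space X.P] (h : Hyp X) (hr : RR T l₀ c) (hν : NumR ν)
    (hT : ∀ U V W, TR (cR ν U) (cR ν V) (cR ν W) = T U V W) {l : (Fin r → ℝ) →ₗ[ℝ] ℝ} (hl : ∀ D, l (cR ν D) = l₀ D)
    {N : Cart X} (hN : cR ν N ∈ closure (AmpR ν)) (hsq : ∀ U, T N N U = 0) (hpos : 0 < l₀ N) :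
    ∃ D : ℕ → Cart X, (∃ P : ℕ → PDiv X, (∀ i j, (P i).η = (P j).η → i = j) ∧ ∀ i, SPr X (P i).η (D i)) ∧
      (∀ i, cR ν (D i) = cR ν (D 0)) ∧ ∃ s : ℝ, 0 < s ∧ cR ν N = s • cR ν (D 0) := by
  obtain ⟨A, hA⟩ := h.amp
  exact fam_of h hr hν hT (zn_of h hr hν hT hl hA hN hsq hpos) (not_finb h hr hν hT hl hA hN hsq hpos)

end Pool.Agent.H20.ZO
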