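import Pool.Agent.H20.ZO.Def
import Pool.Agent.H20.TP.Lb
import Pool.Agent.H36.ZO.Rk

/-!
# [H20 ZO Bnd] THEOREM Z0 (MP_e49dc9_ag): the sections of `B N ^ n` on the horizontal surface have bounded rank over `k(ψ)` (helper36: H36/ZO)

PROOF (helper61, T5; without the functional `RF'`).  `ψ = σ₁ / σ₀`, `σ₀, σ₁` independent sections of `G` on `z` (`k` algebraically closed: `ψ` is transcendental).  `D = A ^ b N ^ n`, `O = H⁰_Γ(D ^ j)`:
`O + ψ O` is in `σ₀⁻¹ H⁰_Γ(D ^ j G)`, so (`kro`) `dim_(k(ψ)) k(ψ) O ≤ h⁰_Γ(D ^ j G) - h⁰_Γ(D ^ j) = j T(D,G,Γ) + C` for large `j`, `T(D,G,Γ) = b T(A,G,Γ)`.  `V = k(ψ) H⁰_Γ(B N ^ n)`, `τ ≠ 0` a section of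
`A ^ b B⁻¹`: `(τ V) ^ j` is in `k(ψ) O`; by the orders at one place of `κ(z) / k(ψ)`, of degree `d` (`pow_rank`): `j dim V ≤ d (dim k(ψ) O + j)`.  `j → ∞`: `dim V ≤ d (b T(A,G,Γ) + 1)`.
-/

set_option autoImplicit false

namespace Pool.Agent.H20.ZO

open Pool.Agent.H54.RV Pool.Agent.H83.TU Pool.Agent.H83.TK Pool.Agent.H20.TD Pool.Agent.H20.TP
open Pool.Agent.H24.VP (RR chS chi)

variable {k K : Type} [Field k] [Field K] [Algebra k K] {X : Mod k K}
  {T : Cart X → Cart X → Cart X → ℝ} {l : Cart X → ℝ} {c : ℝ}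

private theorem psi_ex [IsAlgClosed k] {κ : Type} [Field κ] [Algebra k κ] {Y : Mod k κ} {G : Cart Y}
    (hG : 2 ≤ h0 G 1) : ∃ σ₀ ∈ secL G 1, ∃ σ₁ ∈ secL G 1, ∃ ψ : κ, σ₀ ≠ 0 ∧ σ₁ = σ₀ * ψ ∧ Transcendental k ψ := by
  have h1 : 1 < Module.finrank k (secL G 1) := hG
  have : Nontrivial (secL G 1) := Module.nontrivial_of_finrank_pos (R := k) (by omega)
  obtain ⟨x, hx⟩ := exists_ne (0 : secL G 1)
  obtain ⟨y, hy⟩ := exists_linearIndependent_pair_of_one_lt_finrank h1 hx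
  have hx0 : (x : κ) ≠ 0 := fun h => hx (Subtype.ext h)
  refine ⟨x, x.2, y, y.2, (y : κ) / x, hx0, by field_simp, ?_⟩
  intro halg
  have hint : IsIntegral k ((y : κ) / x) := halg.isIntegral
  have hdeg := IsAlgClosed.degree_eq_one_of_irreducible k (minpoly.irreducible hint)
  obtain ⟨a, ha⟩ := minpoly.mem_range_of_degree_eq_one k _ hdeg
  rw [LinearIndependent.pair_iff] at hy
  have h3 := hy a (-1) (by
    apply Subtype.ext
    show a • (x : κ) + (-1 : k) • (y : κ) = 0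
    rw [Algebra.smul_def, ha, neg_smul, one_smul]
    field_simp
    ring)
  exact neg_ne_zero.2 one_ne_zero h3.2

private theorem dif (hr : RR T l c) (D G Γ : Cart X) (n : ℕ) :
    chS T l Γ (G * D ^ n) - chS T l Γ (1 * D ^ n) = n * T D G Γ + (T G G Γ / 2 - T G Γ Γ / 2) := by
  unfold chS
  rw [T_sq hr, T_sq hr, T_lin hr, T_lin hr, hr.tri.one, hr.tri.one, hr.tri.s12 G D Γ, hr.tri.one]
  ring

theorem bnd [CharZero k] [IsAlgClosed k] [T0Space X.P] (h : Hyp X) (hr : RR T l c) {A N F : Cart X} (hZ : Zn T l A N)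
    {z : X.P} {Γ G : Cart X} (hH : Hor h.var T A N F z Γ G) :
    ∃ ψ : X.kap z, Transcendental k ψ ∧ ∀ B : Cart X, ∃ u : ℕ, ∀ (n : ℕ) (s : Fin (u + 1) → X.kap z),
      (∀ i, s i ∈ secL (resD h.var z (B * N ^ n)) 1) →
      ∃ p : Fin (u + 1) → Polynomial k, p ≠ 0 ∧ ∑ i, Polynomial.aeval ψ (p i) * s i = 0 := by
  classical
  have hfd : ∀ W : Cart (subM h.var z), FiniteDimensional k (secL W 1) := fd_sub h.var hZ.amp z
  obtain ⟨σ₀, hσ₀, σ₁, hσ₁, ψ, hne, hσ, hψ⟩ := psi_ex (k := k) hH.two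
  obtain ⟨p, hp⟩ := H36.ZO.place_ex hψ hH.tr (kap_fg h.var z)
  refine ⟨ψ, hψ, fun B => ?_⟩
  obtain ⟨b, hb, hbs⟩ := ex_G h.var hZ.amp (res_ample h.var z A hZ.amp) B
  obtain ⟨τ, hτ0, hτ⟩ := ex_sec hbs
  -- the bound
  obtain ⟨u, hu⟩ := exists_nat_gt ((deg p : ℝ) * (b * T A G Γ + 1))
  refine ⟨u, fun n s hs => ?_⟩
  have := hfd (resD h.var z (B * N ^ n))
  have := H36.ZO.span_fin (IntermediateField.adjoin k {ψ}) (resD h.var z (B * N ^ n))
  refine H36.ZO.dep_poly (Submodule.span _ (secL (resD h.var z (B * N ^ n)) 1 : Set (X.kap z))) ?_ s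
    fun i => Submodule.subset_span (hs i)
  -- the rank
  obtain ⟨D, hD⟩ : ∃ D, D = A ^ b * N ^ n := ⟨_, rfl⟩
  have hDa : Ample D := by
    have h1 : Ample (A ^ b) := Pool.Agent.H83.TU.ample_pow A b hb hZ.amp
    have h2 : ∀ m : ℕ, Ample (A ^ b * N ^ m) := by
      intro m
      induction m with
      | zero => rwa [pow_zero, mul_one]
      | succ m ih =>
        rw [pow_succ, ← mul_assoc]
        exact hZ.nef _ ih
    rw [hD]
    exact h2 n
  have hTD : T D G Γ = b * T A G Γ := by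
    rw [hD, hr.tri.add, T_pow1 hr, T_pow1 hr, hH.deg, mul_zero, add_zero]
  have hτ' : τ ∈ secL (resD h.var z D * (resD h.var z (B * N ^ n))⁻¹) 1 := by
    have e : resD h.var z D * (resD h.var z (B * N ^ n))⁻¹ = resD h.var z (A ^ b * B⁻¹) := by
      rw [← map_inv, ← map_mul, hD, mul_inv, mul_mul_mul_comm, mul_inv_cancel, mul_one]
    rw [e]
    exact hτ
  have hev := ev_srf h hr hH.spr
  obtain ⟨j₁, hj₁⟩ := hev 1 D hDa
  obtain ⟨j₂, hj₂⟩ := hev G D hDa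
  obtain ⟨C, hC⟩ : ∃ C, C = T G G Γ / 2 - T G Γ Γ / 2 := ⟨_, rfl⟩
  have hrk : ∀ j ≥ max j₁ j₂, (j : ℝ) * (H36.ZO.rk (IntermediateField.adjoin k {ψ}) (resD h.var z (B * N ^ n)) : ℝ) ≤
      deg p * (j * (b * T A G Γ) + C + j) := by
    intro j hj
    have := hfd (resD h.var z D ^ j)
    have := hfd (resD h.var z D ^ j * resD h.var z G)
    have h1 := H36.ZO.rk_pow_le (IntermediateField.adjoin k {ψ}) p hp hτ' hτ0 j
    have h2 := H36.ZO.rk_step (D := resD h.var z D ^ j) hσ₀ hσ₁ hne hσ hψ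
    have h3 := hj₁ j (le_trans (le_max_left _ _) hj)
    have h4 := hj₂ j (le_trans (le_max_right _ _) hj)
    have e1 : hz h.var z (1 * D ^ j) = h0 (resD h.var z D ^ j) 1 := by
      unfold hz
      rw [one_mul, map_pow]
    have e2 : hz h.var z (G * D ^ j) = h0 (resD h.var z D ^ j * resD h.var z G) 1 := by
      unfold hz
      rw [map_mul, map_pow, mul_comm]
    have h5 := dif hr D G Γ j (T := T) (l := l) (c := c)
    rw [← h3, ← h4, hTD, ← hC] at h5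
    simp only [e1, e2] at h5
    have h6 : (H36.ZO.rk (IntermediateField.adjoin k {ψ}) (resD h.var z D ^ j) : ℝ) +
        (h0 (resD h.var z D ^ j) 1 : ℝ) ≤ (h0 (resD h.var z D ^ j * resD h.var z G) 1 : ℝ) := by
      exact_mod_cast h2
    have h7 : (j : ℝ) * (H36.ZO.rk (IntermediateField.adjoin k {ψ}) (resD h.var z (B * N ^ n)) : ℝ) ≤
        deg p * ((H36.ZO.rk (IntermediateField.adjoin k {ψ}) (resD h.var z D ^ j) : ℝ) + j) := by
      exact_mod_cast h1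
    refine h7.trans (mul_le_mul_of_nonneg_left ?_ (Nat.cast_nonneg _))
    linarith
  -- the limit
  by_contra hcon
  rw [not_le] at hcon
  have hrku : (u : ℝ) + 1 ≤ (H36.ZO.rk (IntermediateField.adjoin k {ψ}) (resD h.var z (B * N ^ n)) : ℝ) := by
    exact_mod_cast hcon
  obtain ⟨R, hR⟩ : ∃ R : ℝ, R = (H36.ZO.rk (IntermediateField.adjoin k {ψ}) (resD h.var z (B * N ^ n)) : ℝ) := ⟨_, rfl⟩
  rw [← hR] at hrk hrku
  obtain ⟨j, hj⟩ := exists_nat_gt (max ((max j₁ j₂ : ℕ) : ℝ) ((deg p : ℝ) * C))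
  have h1 : (max j₁ j₂ : ℕ) ≤ j := by
    have := (le_max_left _ _).trans hj.le
    exact_mod_cast this
  have h2 : (deg p : ℝ) * C < j := (le_max_right _ _).trans_lt hj
  have h3 := hrk j h1
  have hj0 : (0 : ℝ) ≤ j := Nat.cast_nonneg _
  have h4 : (j : ℝ) * (u + 1) ≤ j * R := mul_le_mul_of_nonneg_left hrku hj0
  have h5 : (j : ℝ) * ((deg p : ℝ) * (b * T A G Γ + 1)) ≤ j * u := mul_le_mul_of_nonneg_left hu.le hj0
  have h6 : (deg p : ℝ) * (j * (b * T A G Γ) + C + j) = j * ((deg p : ℝ) * (b * T A G Γ + 1)) + deg p * C := by ring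
  linarith

end Pool.Agent.H20.ZO
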