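import Pool.Agent.H20.ZO.Def

/-!
# [H20 ZO Coef] THEOREM Z0 (MP_e49dc9_ag): a coefficient field at the horizontal surface

`coef`: no nonzero section of a power of `L` vanishes at `z`; `ψ ∈ κ(z)` transcendental over `k`: there is a `t`, algebraic over `K`, transcendental over `k`, such that the relations over
`k[ψ]` between the residues of the sections of `L` at `z` are relations over `k[t]` between the sections.
PROOF.  `s₀ ≠ 0` a section.  The `k`-algebra generated by the quotients `s / s₀` is in `X.O z` and its nonzero elements are units of `X.O z`.  A maximal subalgebra `M` of `X.O z` with this property, which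
contains it, is a field and `κ(z)` is algebraic over the image of `M` (if `res x` is transcendental over `M`, then `M[x]` has the property).  So there is an embedding of `κ(z)` over `M` into
the algebraic closure of `K`; `t` = the image of `ψ`.
-/

set_option autoImplicit false

namespace Pool.Agent.H20.ZO

open Pool.Agent.H54.RV Pool.Agent.H83.TU Pool.Agent.H83.TK Pool.Agent.H20.TD Pool.Agent.H20.TP
open Pool.Agent.H24.VP (RR chS chi)

variable {k K : Type} [Field k] [Field K] [Algebra k K] {X : Mod k K}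
  {T : Cart X → Cart X → Cart X → ℝ} {l : Cart X → ℝ} {c : ℝ}

/-- a maximal subalgebra with nonzero elements units of `O` -/
theorem ex_max {O : Subalgebra k K} {V : Subalgebra k K} (hV : ∀ a ∈ V, a ≠ 0 → Un O a) :
    ∃ M : Subalgebra k K, V ≤ M ∧ Maximal (fun M : Subalgebra k K => ∀ a ∈ M, a ≠ 0 → Un O a) M := by
  refine zorn_le_nonempty₀ {M : Subalgebra k K | ∀ a ∈ M, a ≠ 0 → Un O a} (fun c hc hch y hy => ?_) V hV
  have hd : DirectedOn (· ≤ ·) c := hch.directedOn
  refine ⟨sSup c, fun a ha h0 => ?_, fun M hM => le_sSup hM⟩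
  haveI : Nonempty c := ⟨⟨y, hy⟩⟩
  rw [sSup_eq_iSup', ← SetLike.mem_coe, Subalgebra.coe_iSup_of_directed hd.directed_val] at ha
  obtain ⟨M, h1⟩ := Set.mem_iUnion.1 ha
  exact hc M.2 a h1 h0

/-- an embedding of the residue field into the algebraic closure of `K`, over the values of the elements of `V` -/
theorem coefA {O : Subalgebra k K} [IsLocalRing O] {V : Subalgebra k K} (hV : ∀ a ∈ V, a ≠ 0 → Un O a) :
    ∃ ι : IsLocalRing.ResidueField O →ₐ[k] AlgebraicClosure K, ∀ a (_ : a ∈ V) (hO : a ∈ O),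
      ι (IsLocalRing.residue O ⟨a, hO⟩) = algebraMap K (AlgebraicClosure K) a := by
  obtain ⟨M, hVM, hM, hmax⟩ := ex_max hV
  have hMO : M ≤ O := fun a ha => by
    by_cases h0 : a = 0
    · rw [h0]
      exact zero_mem _
    · exact (hM a ha h0).2.1
  letI aκ : Algebra M (IsLocalRing.ResidueField O) :=
    ((IsLocalRing.residue O).comp (Subalgebra.inclusion hMO).toRingHom).toAlgebra
  have hm : ∀ a : M, algebraMap M (IsLocalRing.ResidueField O) a = IsLocalRing.residue O ⟨a.1, hMO a.2⟩ := fun a => rfl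
  have hinj : Function.Injective (algebraMap M (IsLocalRing.ResidueField O)) := by
    rw [injective_iff_map_eq_zero]
    intro a ha
    rw [hm] at ha
    by_contra h0
    have h1 : a.1 ≠ 0 := fun h => h0 (Subtype.ext h)
    rw [IsLocalRing.residue_eq_zero_iff] at ha
    exact ha ((un_iff (hMO a.2)).2 (hM a.1 a.2 h1))
  haveI : FaithfulSMul M (IsLocalRing.ResidueField O) := (faithfulSMul_iff_algebraMap_injective M _).2 hinj
  haveI : FaithfulSMul M (AlgebraicClosure K) := by
    rw [faithfulSMul_iff_algebraMap_injective]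
    intro a b hab
    have h1 : algebraMap K (AlgebraicClosure K) a.1 = algebraMap K (AlgebraicClosure K) b.1 := hab
    exact Subtype.ext ((algebraMap K (AlgebraicClosure K)).injective h1)
  haveI hal : Algebra.IsAlgebraic M (IsLocalRing.ResidueField O) := by
    refine ⟨fun ξ => ?_⟩
    by_contra hξ
    obtain ⟨⟨x, hx⟩, rfl⟩ := IsLocalRing.residue_surjective ξ
    have hMx : ∀ a ∈ (Algebra.adjoin M {x}).restrictScalars k, a ≠ 0 → Un O a := by
      intro a ha h0
      rw [Subalgebra.mem_restrictScalars, Algebra.adjoin_singleton_eq_range_aeval] at ha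
      obtain ⟨p, rfl⟩ := ha
      have hp : p ≠ 0 := by
        rintro rfl
        exact h0 (map_zero _)
      have hxO : Polynomial.aeval x p ∈ O := by
        rw [Polynomial.aeval_eq_sum_range]
        refine sum_mem fun i _ => ?_
        rw [Algebra.smul_def]
        exact mul_mem (hMO (p.coeff i).2) (pow_mem hx i)
      change Un O (Polynomial.aeval x p)
      rw [← un_iff hxO]
      have h2 : IsLocalRing.residue O ⟨Polynomial.aeval x p, hxO⟩ =
          Polynomial.aeval (IsLocalRing.residue O ⟨x, hx⟩) p := by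
        have h3 : (⟨Polynomial.aeval x p, hxO⟩ : O) = p.sum fun i a => (⟨a.1, hMO a.2⟩ : O) * ⟨x, hx⟩ ^ i := by
          refine Subtype.ext ?_
          rw [Polynomial.sum]
          have h4 := map_sum O.val (fun i => (⟨(p.coeff i).1, hMO (p.coeff i).2⟩ : O) * ⟨x, hx⟩ ^ i) p.support
          refine Eq.trans ?_ h4.symm
          change Polynomial.aeval x p = _
          rw [Polynomial.aeval_def, Polynomial.eval₂_eq_sum, Polynomial.sum]
          rfl
        rw [h3, Polynomial.aeval_def, Polynomial.eval₂_eq_sum, Polynomial.sum, Polynomial.sum, map_sum]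
        refine Finset.sum_congr rfl fun i _ => ?_
        rw [map_mul, map_pow]
        rfl
      by_contra h5
      have h6 : IsLocalRing.residue O ⟨Polynomial.aeval x p, hxO⟩ = 0 := by
        rw [IsLocalRing.residue_eq_zero_iff]
        exact h5
      rw [h2] at h6
      exact hξ ⟨p, hp, h6⟩
    have hle : M ≤ (Algebra.adjoin M {x}).restrictScalars k := fun a ha => by
      rw [Subalgebra.mem_restrictScalars]
      exact (Algebra.adjoin M {x}).algebraMap_mem ⟨a, ha⟩
    have h7 := hmax hMx hle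
    have h8 : x ∈ M := h7 (by
      rw [Subalgebra.mem_restrictScalars]
      exact Algebra.self_mem_adjoin_singleton M x)
    exact hξ (isAlgebraic_algebraMap (⟨x, h8⟩ : M))
  let ι : IsLocalRing.ResidueField O →ₐ[M] AlgebraicClosure K := IsAlgClosed.lift
  have h1 : ∀ a : M, ι (IsLocalRing.residue O ⟨a.1, hMO a.2⟩) = algebraMap K (AlgebraicClosure K) a.1 := fun a => by
    rw [← hm a]
    exact ι.commutes a
  refine ⟨⟨ι.toRingHom, fun c => ?_⟩, fun a ha hO => h1 ⟨a, hVM ha⟩⟩
  have h2 := h1 (algebraMap k M c)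
  exact h2

theorem coefB (z : X.P) {V : Subalgebra k K} (hV : ∀ a ∈ V, a ≠ 0 → Un (X.O z) a) :
    ∃ ι : X.kap z →ₐ[k] AlgebraicClosure K, ∀ a ∈ V, ι (X.rs z a) = algebraMap K (AlgebraicClosure K) a := by
  obtain ⟨ι, hι⟩ := coefA (O := X.O z) hV
  refine ⟨ι, fun a ha => ?_⟩
  have hO : a ∈ X.O z := by
    by_cases h0 : a = 0
    · rw [h0]
      exact zero_mem _
    · exact (hV a ha h0).2.1
  have h1 := hι a ha hO
  unfold Mod.rs
  rw [dif_pos hO]
  exact h1

theorem sum_unit {κ Ω : Type} [Field κ] [Field Ω] [Algebra k κ] [Algebra k Ω] (ι : κ →ₐ[k] Ω) {r : ℕ} {ψ : κ}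
    {p : Fin r → Polynomial k} {a : Fin r → κ} {b : Fin r → κ} {c : κ} {e : Fin r → Ω} {d : Ω} (hc : c ≠ 0) (hd : d ≠ 0)
    (h1 : ∀ i, a i = b i * c) (h2 : ∀ i, ι (b i) = e i / d) (h : ∑ i, Polynomial.aeval ψ (p i) * a i = 0) :
    ∑ i, Polynomial.aeval (ι ψ) (p i) * e i = 0 := by
  have h3 : ∑ i, Polynomial.aeval ψ (p i) * b i = 0 := by
    have h4 : (∑ i, Polynomial.aeval ψ (p i) * b i) * c = 0 := by
      rw [Finset.sum_mul, ← h]
      refine Finset.sum_congr rfl fun i _ => ?_
      rw [h1, mul_assoc]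
    exact (mul_eq_zero.1 h4).resolve_right hc
  have h5 : ∑ i, Polynomial.aeval (ι ψ) (p i) * (e i / d) = 0 := by
    have h9 := congrArg ι h3
    rw [map_sum, map_zero] at h9
    rw [← h9]
    refine Finset.sum_congr rfl fun i _ => ?_
    rw [map_mul, h2, ← Polynomial.aeval_algHom_apply]
  have h6 : (∑ i, Polynomial.aeval (ι ψ) (p i) * e i) * d⁻¹ = 0 := by
    rw [Finset.sum_mul, ← h5]
    refine Finset.sum_congr rfl fun i _ => ?_
    rw [div_eq_mul_inv, mul_assoc]
  exact (mul_eq_zero.1 h6).resolve_right (inv_ne_zero hd)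

theorem coef (hX : IsVar X) {z : X.P} {L : Cart X}
    (hu : ∀ (m : ℕ) (s : K), s ∈ secL (L ^ m) 1 → s ≠ 0 → Un (X.O z) (s * (L ^ m).eq z))
    {ψ : X.kap z} (hψ : Transcendental k ψ) :
    ∃ t : AlgebraicClosure K, Transcendental k t ∧ ∀ (r : ℕ) (s : Fin r → K) (p : Fin r → Polynomial k),
      (∀ i, s i ∈ secL L 1) → ∑ i, Polynomial.aeval ψ (p i) * X.rs z (s i * L.eq z) = 0 →
      ∑ i, Polynomial.aeval t (p i) * algebraMap K (AlgebraicClosure K) (s i) = 0 := by
  by_cases hL : ∀ s ∈ secL L 1, s = 0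
  · have hV : ∀ a ∈ (⊥ : Subalgebra k K), a ≠ 0 → Un (X.O z) a := by
      intro a ha h0
      obtain ⟨c, rfl⟩ := Algebra.mem_bot.1 ha
      have hc : c ≠ 0 := fun h => h0 (by rw [h, map_zero])
      refine ⟨h0, (X.O z).algebraMap_mem c, ?_⟩
      rw [← map_inv₀]
      exact (X.O z).algebraMap_mem _
    obtain ⟨ι, -⟩ := coefB z hV
    refine ⟨ι ψ, fun h1 => hψ ?_, fun r s p hs _ => Finset.sum_eq_zero fun i _ => ?_⟩
    · exact (isAlgebraic_algHom_iff ι ι.toRingHom.injective).1 h1
    · rw [hL _ (hs i), map_zero, mul_zero]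
  push Not at hL
  obtain ⟨s₀, hs₀, h0⟩ := hL
  have hu0 : Un (X.O z) (s₀ * L.eq z) := by
    have h1 := hu 1 s₀ (by rwa [pow_one]) h0
    rwa [pow_one] at h1
  have hform : ∀ a ∈ Algebra.adjoin k {a : K | ∃ s ∈ secL L 1, a = s / s₀},
      ∃ (m : ℕ) (s : K), s ∈ secL (L ^ m) 1 ∧ a = s / s₀ ^ m := by
    have hpw : ∀ m : ℕ, s₀ ^ m ∈ secL (L ^ m) 1 := by
      intro m
      induction m with
      | zero =>
        intro x
        rw [pow_zero, pow_zero, one_eq, one_pow, one_mul]
        exact one_mem _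
      | succ m ih =>
        rw [pow_succ, pow_succ]
        exact sec_mul _ _ _ _ ih hs₀
    have hp0 : ∀ m : ℕ, s₀ ^ m ≠ 0 := fun m => pow_ne_zero m h0
    intro a ha
    induction ha using Algebra.adjoin_induction with
    | mem a ha =>
      obtain ⟨s, hs, rfl⟩ := ha
      exact ⟨1, s, by rwa [pow_one], by rw [pow_one]⟩
    | algebraMap c =>
      refine ⟨0, algebraMap k K c, fun x => ?_, by rw [pow_zero, div_one]⟩
      rw [pow_zero, one_eq, one_pow, mul_one]
      exact (X.O x).algebraMap_mem c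
    | add a b _ _ iha ihb =>
      obtain ⟨m, s, hs, rfl⟩ := iha
      obtain ⟨n, t, ht, rfl⟩ := ihb
      refine ⟨m + n, s * s₀ ^ n + t * s₀ ^ m, ?_, ?_⟩
      · refine (secL (L ^ (m + n)) 1).add_mem ?_ ?_
        · rw [pow_add]
          exact sec_mul _ _ _ _ hs (hpw n)
        · rw [add_comm m n, pow_add]
          exact sec_mul _ _ _ _ ht (hpw m)
      · rw [div_add_div _ _ (hp0 m) (hp0 n), pow_add]
        ring
    | mul a b _ _ iha ihb =>
      obtain ⟨m, s, hs, rfl⟩ := iha
      obtain ⟨n, t, ht, rfl⟩ := ihb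
      refine ⟨m + n, s * t, ?_, ?_⟩
      · rw [pow_add]
        exact sec_mul _ _ _ _ hs ht
      · rw [div_mul_div_comm, pow_add]
  have hV : ∀ a ∈ Algebra.adjoin k {a : K | ∃ s ∈ secL L 1, a = s / s₀}, a ≠ 0 → Un (X.O z) a := by
    intro a ha h1
    obtain ⟨m, s, hs, rfl⟩ := hform a ha
    have h2 : s ≠ 0 := by
      rintro rfl
      exact h1 (zero_div _)
    have h3 := un_div (hu m s hs h2) (un_pow hu0 m)
    have h4 : s * (L ^ m).eq z / (s₀ * L.eq z) ^ m = s / s₀ ^ m := by
      rw [pow_eq, mul_pow]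
      have h5 := pow_ne_zero m (L.ne z)
      have h6 := pow_ne_zero m h0
      field_simp
    rwa [h4] at h3
  obtain ⟨ι, hι⟩ := coefB z hV
  refine ⟨ι ψ, fun h1 => hψ ?_, fun r s p hs h2 => ?_⟩
  · exact (isAlgebraic_algHom_iff ι ι.toRingHom.injective).1 h1
  have hq : ∀ i, s i / s₀ ∈ Algebra.adjoin k {a : K | ∃ s ∈ secL L 1, a = s / s₀} := fun i =>
    Algebra.subset_adjoin ⟨s i, hs i, rfl⟩
  have hO : ∀ i, s i / s₀ ∈ X.O z := fun i => by
    by_cases h3 : s i / s₀ = 0
    · rw [h3]
      exact zero_mem _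
    · exact (hV _ (hq i) h3).2.1
  have h4 : ∀ i, X.rs z (s i * L.eq z) = X.rs z (s i / s₀) * X.rs z (s₀ * L.eq z) := fun i => by
    rw [← rs_mul z (hO i) hu0.2.1]
    congr 1
    field_simp
  have h7 : ∀ i, ι (X.rs z (s i / s₀)) = algebraMap K (AlgebraicClosure K) (s i / s₀) := fun i => hι _ (hq i)
  have hd : algebraMap K (AlgebraicClosure K) s₀ ≠ 0 := by
    rwa [Ne, map_eq_zero]
  exact sum_unit (κ := X.kap z) ι (c := X.rs z (s₀ * L.eq z)) (a := fun i => X.rs z (s i * L.eq z))
    (b := fun i => X.rs z (s i / s₀)) ((rs_ne z hu0.2.1).2 hu0) hd h4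
    (fun i => by rw [h7, map_div₀]) h2

end Pool.Agent.H20.ZO
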