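import Pool.Agent.H20.TP.Srf
import Pool.Agent.H20.TP.Sec
import Pool.Agent.H39.TZ.N2

/-!
# [H20 ZO Def] THEOREM Z0 (MP_e49dc9_ag): definitions

`N` nef, `N . N = 0`, `l N > 0`.  Claim: infinitely many prime divisors `S` have `T N A S = 0` (think 1228, 1223).

* `Zn T l A N`: the hypotheses on `N`.  `Finb T A N`: for every `B` only finitely many prime divisors `S` with `T N A S = 0` and `T S A A ≤ B` (to be refuted).
* `Fcl T A N F`: the class `F`: `T(N,F,.) ≥ 0` on prime divisors, `T(N,F,F) = 0`, `T(N,A,F) > 0`.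
* `Hor hX T A N F z Γ G`: the horizontal surface `Γ` with generic point `z`; `G` has two sections on it, `T(N,G,Γ) = 0`.
-/

set_option autoImplicit false

namespace Pool.Agent.H20.ZO

open Pool.Agent.H54.RV Pool.Agent.H83.TU Pool.Agent.H83.TK Pool.Agent.H20.TD Pool.Agent.H20.TP
open Pool.Agent.H24.VP (RR chS chi)

variable {k K : Type} [Field k] [Field K] [Algebra k K] {X : Mod k K}

/-- `A` ample, `N` nef, `N . N = 0`, `N` not numerically trivial, `l N > 0` -/
structure Zn (T : Cart X → Cart X → Cart X → ℝ) (l : Cart X → ℝ) (A N : Cart X) : Prop where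
  amp : Ample A
  nef : ∀ B : Cart X, Ample B → Ample (B * N)
  sq : ∀ U, T N N U = 0
  pos : 0 < T N A A
  lpos : 0 < l N

/-- for every `B` only finitely many prime divisors `S` have `T N A S = 0` and `T S A A ≤ B` -/
def Finb (T : Cart X → Cart X → Cart X → ℝ) (A N : Cart X) : Prop :=
  ∀ B : ℝ, {z : X.P | ∃ P : PDiv X, P.η = z ∧ ∃ S : Cart X, SPr X z S ∧ T N A S = 0 ∧ T S A A ≤ B}.Finite

/-- the class `F` -/
structure Fcl (T : Cart X → Cart X → Cart X → ℝ) (A N F : Cart X) : Prop where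
  nn : ∀ (P : PDiv X) (S : Cart X), SPr X P.η S → 0 ≤ T N F S
  sq : T N F F = 0
  pos : 0 < T N A F

/-- the horizontal surface -/
structure Hor (hX : IsVar X) (T : Cart X → Cart X → Cart X → ℝ) (A N F : Cart X) (z : X.P) (Γ G : Cart X) : Prop where
  tr : Algebra.trdeg k (X.kap z) = 2
  spr : SPr X z Γ
  hor : 0 < T N F Γ
  al : 0 < T N A Γ
  two : 2 ≤ hz hX z G
  deg : T N G Γ = 0

end Pool.Agent.H20.ZO
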