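import Pool.Agent.H20.ZO.Def
import Pool.Agent.H61.ZO.JB
import Pool.Agent.H61.ZO.JC
import Pool.Agent.H32.TK.Surf

/-!
# [H20 ZO JJ] THEOREM Z0 (MP_e49dc9_ag): many sections and few dimensions over `k(t)` (from H61/ZO/JB, JC)

`jj`: `V` a space of sections of `L`, `t` algebraic over `K`, transcendental over `k`; any `u + 1` sections in `V` are linearly dependent over `k[t]`; `(m + 1) u < dim V`: infinitely many prime
divisors `S` such that a nonzero section in `V` vanishes `m + 1` times along `S`.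
PROOF (helper61).  Over a prime `S` of `X` on which `t = s` (a zero of the minimal polynomial of `t` at `s ∈ k`) sections of the same order along `S` with residues independent over `k` are
independent over `k[t]`: the filtration by the order along `S` has steps of dimension `≤ u`.
-/

set_option autoImplicit false

namespace Pool.Agent.H20.ZO

open Pool.Agent.H54.RV Pool.Agent.H83.TU Pool.Agent.H83.TK Pool.Agent.H20.TD Pool.Agent.H20.TP
open Pool.Agent.H24.VP (RR chS chi)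

variable {k K : Type} [Field k] [Field K] [Algebra k K] {X : Mod k K}
  {T : Cart X → Cart X → Cart X → ℝ} {l : Cart X → ℝ} {c : ℝ}

theorem jj [CharZero k] [IsAlgClosed k] [T0Space X.P] (h : Hyp X) {Ω : Type} [Field Ω] [Algebra K Ω] [Algebra k Ω]
    [IsScalarTower k K Ω] {t : Ω} (hi : IsIntegral K t) (ht : Transcendental k t) {L : Cart X} {V : Submodule k K}
    (hV : V ≤ secL L 1) {u m : ℕ}
    (hu : ∀ s : Fin (u + 1) → K, (∀ i, s i ∈ V) →
      ∃ p : Fin (u + 1) → Polynomial k, p ≠ 0 ∧ ∑ i, Polynomial.aeval t (p i) * algebraMap K Ω (s i) = 0)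
    (hm : (m + 1) * u < Module.finrank k V) :
    {z : X.P | ∃ P : PDiv X, P.η = z ∧ ∃ S : Cart X, SPr X z S ∧ ∃ s ∈ V, s ≠ 0 ∧
      s ∈ secL (L * (S ^ (m + 1))⁻¹) 1}.Infinite := by
  refine (Pool.Agent.H61.ZO.inf_ov h hi ht).mono ?_
  rintro z ⟨P, rfl, ho⟩
  obtain ⟨S, hS⟩ := pdiv_spr h P
  haveI : FiniteDimensional k V := FiniteDimensional.of_finrank_pos (lt_of_le_of_lt (Nat.zero_le _) hm)
  obtain ⟨f, hfV, hf0, hf⟩ := Pool.Agent.H61.ZO.jj_cnt P.p ho V hu (e := - P.p.ord (L.eq P.η)) (fun f hf hf0 => by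
    have h1 := hV hf P.η
    rw [pow_one] at h1
    have h2 := (ord_nonneg P.p _ (mul_ne_zero hf0 (L.ne _))).2 ((P.mem _).1 h1)
    rw [ord_mul P.p _ _ hf0 (L.ne _)] at h2
    linarith) hm
  refine ⟨P, rfl, S, hS, f, hfV, hf0, ?_⟩
  have hE : Effective (prin X f hf0 * L) := by
    intro x
    have h1 := hV hfV x
    rw [pow_one] at h1
    exact h1
  have ho1 : P.p.ord ((prin X f hf0 * L).eq P.η) = P.p.ord f + P.p.ord (L.eq P.η) := by
    rw [mul_eq]
    exact ord_mul P.p _ _ hf0 (L.ne _)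
  obtain ⟨n, hn⟩ : ∃ n : ℕ, P.p.ord ((prin X f hf0 * L).eq P.η) = n := by
    refine ⟨(P.p.ord ((prin X f hf0 * L).eq P.η)).toNat, (Int.toNat_of_nonneg ?_).symm⟩
    rw [ho1]
    omega
  obtain ⟨E', hE', -, hEE⟩ := Pool.Agent.H32.TK.pow_split h.var P hS n _ hE hn
  have hnm : m + 1 ≤ n := by
    rw [ho1] at hn
    omega
  intro x
  have h1 : (prin X f hf0 * L) * (S ^ (m + 1))⁻¹ = S ^ (n - (m + 1)) * E' := by
    rw [hEE, mul_inv_eq_iff_eq_mul, mul_assoc, mul_comm E', ← mul_assoc, ← pow_add, Nat.sub_add_cancel hnm]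
  have h2 : f * (L * (S ^ (m + 1))⁻¹).eq x = ((prin X f hf0 * L) * (S ^ (m + 1))⁻¹).eq x := by
    rw [mul_eq, mul_eq, mul_eq, ← mul_assoc]
    rfl
  rw [pow_one, h2, h1, mul_eq, pow_eq]
  exact mul_mem (pow_mem (hS.eff x) _) (hE' x)

end Pool.Agent.H20.ZO
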