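import Pool.Agent.H20.ZO.Def
import Pool.Agent.H24.VP.PosB

/-!
# [H20 ZO Mov] THEOREM Z0 (MP_e49dc9_ag): functionals on effective divisors, the final count

`fun_eff`: an additive functional which is `≥ 0` on primes is `≥ 0` on effective divisors; `feff`: `T(N,F,.)`; `aeff`: `T(N,A,.)`; `bigeff`: `T(A,A,.)`.
`mov_false`: infinitely many primes `S` such that `L - (m + 1) S` is effective, `T(N,A,L) < m + 1`: against `Finb`.
-/

set_option autoImplicit false

namespace Pool.Agent.H20.ZO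

open Pool.Agent.H54.RV Pool.Agent.H83.TU Pool.Agent.H83.TK Pool.Agent.H20.TD Pool.Agent.H20.TP
open Pool.Agent.H24.VP (RR chS chi)

variable {k K : Type} [Field k] [Field K] [Algebra k K] {X : Mod k K}
  {T : Cart X → Cart X → Cart X → ℝ} {l : Cart X → ℝ} {c : ℝ}

/-- an additive function which is `≥ 0` on the primes and `0` on the trivial divisors is `≥ 0` on effective divisors -/
theorem fun_eff [CharZero k] [T0Space X.P] (h : Hyp X) (hr : RR T l c) {φ : Cart X → ℝ}
    (hadd : ∀ U V, φ (U * V) = φ U + φ V) (hone : φ 1 = 0) (htriv : ∀ U, Effective U → Effective U⁻¹ → φ U = 0)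
    (hprm : ∀ (P : PDiv X) (S : Cart X), SPr X P.η S → 0 ≤ φ S) {E : Cart X} (hE : Effective E) : 0 ≤ φ E := by
  obtain ⟨Ls, W, h3, h4, h5, h6⟩ := Pool.Agent.H24.VP.fac_eff h hr hE
  rw [h6, hadd, htriv W h4 h5, add_zero]
  clear h6
  induction Ls with
  | nil => rw [List.map_nil, List.prod_nil, hone]
  | cons p Ls ih =>
    rw [List.map_cons, List.prod_cons, hadd]
    have h1 := hprm p.1 p.2 (h3 p List.mem_cons_self)
    have h2 := ih fun q hq => h3 q (List.mem_cons_of_mem _ hq)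
    linarith

theorem T3_triv [CharZero k] (h : Hyp X) (hr : RR T l c) (A B : Cart X) {U : Cart X} (hU : Effective U)
    (hU' : Effective U⁻¹) : T A B U = 0 := by
  rw [hr.tri.s23, hr.tri.s12]
  exact Pool.Agent.H24.VP.triv_T h hr hU hU' A B

/-- the effective divisor of a section -/
theorem eff_sec {W : Cart X} {s : K} (hs : s ∈ secL W 1) (h0 : s ≠ 0) : Effective (prin X s h0 * W) := by
  intro x
  have h1 := hs x
  rw [pow_one] at h1
  exact h1

theorem T3_prin [CharZero k] [T0Space X.P] (h : Hyp X) (hr : RR T l c) (A B W : Cart X) {s : K} (h0 : s ≠ 0) :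
    T A B (prin X s h0 * W) = T A B W := by
  rw [hr.tri.add3]
  have h1 : T A B (prin X s h0) = 0 := by
    rw [hr.tri.s23, hr.tri.s12]
    exact Pool.Agent.H24.VP.numz_T h hr (numz_prin s h0) A B
  rw [h1, zero_add]

/-- an effective divisor through the generic point of `S` contains `S` -/
theorem div_spr (hX : IsVar X) {z : X.P} {S : Cart X} (hS : SPr X z S) {E : Cart X} (hE : Effective E)
    (hun : ¬ Un (X.O z) (E.eq z)) : Effective (E * S⁻¹) := by
  intro x
  rw [mul_eq, inv_eq, ← div_eq_mul_inv, hS.mem_iff hX x (hE x)]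
  intro hx h1
  apply hun
  have h2 := quo_un E z x hx
  have h3 : E.eq z = E.eq x * (E.eq x / E.eq z)⁻¹ := by
    have := E.ne x
    have := E.ne z
    field_simp
  rw [h3]
  exact un_mul h1 (un_inv h2)

theorem feff [CharZero k] [T0Space X.P] (h : Hyp X) (hr : RR T l c) {A N F : Cart X} (hF : Fcl T A N F) {E : Cart X}
    (hE : Effective E) : 0 ≤ T N F E :=
  fun_eff h hr (φ := fun E => T N F E) (fun U V => hr.tri.add3 _ _ _ _) (hr.tri.one3 _ _)
    (fun U h1 h2 => T3_triv h hr N F h1 h2) hF.nn hE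

theorem aeff [CharZero k] [T0Space X.P] (h : Hyp X) (hr : RR T l c) {A N : Cart X} (hZ : Zn T l A N) {E : Cart X}
    (hE : Effective E) : 0 ≤ T N A E :=
  fun_eff h hr (φ := fun E => T N A E) (fun U V => hr.tri.add3 _ _ _ _) (hr.tri.one3 _ _)
    (fun U h1 h2 => T3_triv h hr N A h1 h2)
    (fun P S hS => Pool.Agent.H24.VP.nn_prm h hr hZ.nef hZ.amp P hS) hE

theorem bigeff [CharZero k] [T0Space X.P] (h : Hyp X) (hr : RR T l c) {A : Cart X} (hA : Ample A) {E : Cart X}
    (hE : Effective E) : 0 ≤ T A A E :=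
  fun_eff h hr (φ := fun E => T A A E) (fun U V => hr.tri.add3 _ _ _ _) (hr.tri.one3 _ _)
    (fun U h1 h2 => T3_triv h hr A A h1 h2)
    (fun P S hS => (Pool.Agent.H24.VP.pos_prm h hr hA hA P hS).le) hE

theorem mov_false [CharZero k] [T0Space X.P] (h : Hyp X) (hr : RR T l c) {A N : Cart X} (hZ : Zn T l A N)
    (hfin : Finb T A N) {L : Cart X} {m : ℕ} (hL : T N A L < m + 1)
    (hinf : {z : X.P | ∃ P : PDiv X, P.η = z ∧ ∃ S : Cart X, SPr X z S ∧ ∃ s : K, s ≠ 0 ∧
      s ∈ secL (L * (S ^ (m + 1))⁻¹) 1}.Infinite) : False := by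
  refine hinf ((hfin (T L A A)).subset ?_)
  rintro w ⟨P, rfl, S, hS, s, hs0, hs⟩
  have h1 := eff_sec hs hs0
  have h2 := aeff h hr hZ h1
  have h3 := bigeff h hr hZ.amp h1
  have h4 := Pool.Agent.H24.VP.nn_prm h hr hZ.nef hZ.amp P hS
  have h5 := Pool.Agent.H24.VP.pos_prm h hr hZ.amp hZ.amp P hS
  obtain ⟨a, ha⟩ := Pool.Agent.H24.VP.t_int hr h.amp N A S
  rw [T3_prin h hr, hr.tri.add3, hr.tri.inv3, hr.tri.pow3] at h2
  rw [T3_prin h hr, hr.tri.add3, hr.tri.inv3, hr.tri.pow3] at h3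
  push_cast at h2 h3
  have hm0 : (0 : ℝ) ≤ m := Nat.cast_nonneg m
  refine ⟨P, rfl, S, hS, ?_, ?_⟩
  · rw [ha] at h4 h2 ⊢
    have h6 : (a : ℝ) < 1 := by
      by_contra h7
      push Not at h7
      nlinarith
    have h8 : (0 : ℤ) ≤ a := by exact_mod_cast h4
    have h9 : a < 1 := by exact_mod_cast h6
    have h10 : a = 0 := by omega
    rw [h10, Int.cast_zero]
  · have h6 : T S A A = T A A S := by rw [hr.tri.s12, hr.tri.s23]
    have h7 : T L A A = T A A L := by rw [hr.tri.s12, hr.tri.s23]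
    rw [h6, h7]
    nlinarith

end Pool.Agent.H20.ZO
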