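import Pool.Agent.H20.ZO.Def

/-!
# [H20 ZO InfP] THEOREM Z0 (MP_e49dc9_ag): infinitely many prime divisors on which a function is constant

`inf_prm`: `f ∈ K` transcendental over `k`: for infinitely many `c ∈ k` there is a prime divisor `P` with `f - c` in the maximal ideal of its local ring.
PROOF.  Take an affine chart `U` with `f ∈ X.sec U` (shrink).  It is enough that `f - c` is a nonunit at some `x ∈ U` for infinitely many `c` (a prime factor of `f - c` in the factorial
ring `X.O x`, `pdiv_of_prime`).  The algebra `B = X.sec U` is finitely generated: lying over as in Inf.lean.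
-/

set_option autoImplicit false

namespace Pool.Agent.H20.ZO

open Pool.Agent.H54.RV Pool.Agent.H83.TU Pool.Agent.H83.TK Pool.Agent.H20.TD Pool.Agent.H20.TP
open Pool.Agent.H24.VP (RR chS chi)

variable {k K : Type} [Field k] [Field K] [Algebra k K] {X : Mod k K}
  {T : Cart X → Cart X → Cart X → ℝ} {l : Cart X → ℝ} {c : ℝ}

/-- a transcendental element of a finitely generated domain takes infinitely many values -/
private theorem alg_inf {k B : Type} [Field k] [IsAlgClosed k] [CommRing B] [IsDomain B] [Algebra k B]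
    [Algebra.FiniteType k B] {f : B} (hf : Transcendental k f) :
    {c : k | ¬ IsUnit (f - algebraMap k B c)}.Infinite := by
  intro hfin
  have hne : ∀ c : k, f - algebraMap k B c ≠ 0 := fun c h0 => by
    apply hf
    rw [sub_eq_zero.1 h0]
    exact isAlgebraic_algebraMap c
  obtain ⟨g, hg⟩ : ∃ g : B, g = ∏ c ∈ hfin.toFinset, (f - algebraMap k B c) := ⟨_, rfl⟩
  have hg0 : g ≠ 0 := by
    rw [hg]
    exact Finset.prod_ne_zero_iff.2 fun c _ => hne c
  have hJB : IsJacobsonRing B := isJacobsonRing_of_finiteType (A := k)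
  have hrad : (⊥ : Ideal B).IsRadical := (Ideal.isPrime_bot (α := B)).isRadical
  have hjac : (⊥ : Ideal B).jacobson = ⊥ := hJB.out hrad
  have hg1 : g ∉ (⊥ : Ideal B).jacobson := by
    rw [hjac, Ideal.mem_bot]
    exact hg0
  rw [Ideal.jacobson, Submodule.mem_sInf] at hg1
  push Not at hg1
  obtain ⟨m, ⟨-, hm⟩, hgm⟩ := hg1
  have := hm
  let _ : Field (B ⧸ m) := Ideal.Quotient.field m
  have : Algebra.FiniteType k (B ⧸ m) := Algebra.FiniteType.of_surjective (Ideal.Quotient.mkₐ k m)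
    (Ideal.Quotient.mkₐ_surjective k m)
  have : Module.Finite k (B ⧸ m) := finite_of_finite_type_of_isJacobsonRing k (B ⧸ m)
  have hsurj := (IsAlgClosed.algebraMap_bijective_of_isIntegral (k := k) (K := B ⧸ m)).2
  obtain ⟨c, hc⟩ := hsurj (Ideal.Quotient.mk m f)
  have hcm : f - algebraMap k B c ∈ m := by
    rw [← Ideal.Quotient.eq_zero_iff_mem, map_sub, ← hc, sub_eq_zero]
    rfl
  have hcu : ¬ IsUnit (f - algebraMap k B c) := fun hu => hm.ne_top (Ideal.eq_top_of_isUnit_mem _ hcm hu)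
  have hcS : c ∈ hfin.toFinset := by
    rw [Set.Finite.mem_toFinset]
    exact hcu
  apply hgm
  rw [hg]
  exact Ideal.mem_of_dvd m (Finset.dvd_prod_of_mem _ hcS) hcm

theorem inf_prm [CharZero k] [IsAlgClosed k] (h : Hyp X) {f : K} (hf : Transcendental k f) :
    {c : k | ∃ P : PDiv X, f ∈ X.O P.η ∧ ¬ Un (X.O P.η) (f - algebraMap k K c)}.Infinite := by
  have hX := h.var
  obtain ⟨g, hg⟩ := h.gen
  obtain ⟨U, hU, hgU⟩ := hX.chart g
  obtain ⟨s, hs, hs1, hs2⟩ := hX.frac U g hU hgU f (by rw [hg.top]; exact Algebra.mem_top)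
  obtain ⟨V, hV⟩ : ∃ V, V = {x | x ∈ U ∧ Un (X.O x) s} := ⟨_, rfl⟩
  have hVaff : X.aff V := by
    rw [hV]
    exact hX.basic U s hU fun x hx => (mem_sec U s).1 hs x hx
  have hgV : g ∈ V := by
    rw [hV]
    exact ⟨hgU, hs1⟩
  have hfV : f ∈ X.sec V := by
    rw [mem_sec]
    intro x hx
    rw [hV] at hx
    have h1 : f = f * s * s⁻¹ := by
      rw [mul_assoc, mul_inv_cancel₀ hs1.1, mul_one]
    rw [h1]
    exact (X.O x).mul_mem ((mem_sec U _).1 hs2 x hx.1) hx.2.2.2
  have : Algebra.FiniteType k (X.sec V) := ((X.sec V).fg_iff_finiteType).1 (hX.fg V hVaff ⟨g, hgV⟩)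
  have htr : Transcendental k (⟨f, hfV⟩ : X.sec V) := by
    intro h1
    apply hf
    exact h1.algHom (X.sec V).val
  refine (alg_inf htr).mono fun c hc => ?_
  obtain ⟨I, hI, hcI⟩ := exists_max_ideal_of_mem_nonunits (by exact hc)
  obtain ⟨x, hxV, hx⟩ := hX.prime V hVaff ⟨g, hgV⟩ I hI.isPrime
  have h2 : ¬ Un (X.O x) (f - algebraMap k K c) := (hx _).1 hcI
  have hfx : f ∈ X.O x := (mem_sec V f).1 hfV x hxV
  have hfc : f - algebraMap k K c ∈ X.O x := (X.O x).sub_mem hfx ((X.O x).algebraMap_mem c)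
  have hne : f - algebraMap k K c ≠ 0 := fun h0 => by
    apply hf
    rw [sub_eq_zero.1 h0]
    exact isAlgebraic_algebraMap c
  have := h.ufd x
  have hnu : ¬ IsUnit (⟨f - algebraMap k K c, hfc⟩ : X.O x) := fun hu => h2 ((un_iff hfc).1 hu)
  obtain ⟨π, hπ, hd⟩ := WfDvdMonoid.exists_irreducible_factor hnu (fun h0 => hne (congrArg Subtype.val h0))
  have hπp : Prime π := UniqueFactorizationMonoid.irreducible_iff_prime.1 hπ
  obtain ⟨P, hP1, hP2, hP3⟩ := pdiv_of_prime h x π π.2 hπp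
  refine ⟨P, hX.spec _ _ hP1 hfx, fun hu => ?_⟩
  have h3 : 0 < P.p.ord (f - algebraMap k K c) := by
    rw [hP3 _ hfc hne]
    obtain ⟨a, ha⟩ := hd
    have h4 : f - algebraMap k K c = (π : K) * a := congrArg Subtype.val ha
    rw [h4, mul_div_cancel_left₀ _ (fun h0 => hπp.ne_zero (Subtype.ext h0))]
    exact a.2
  have h4 := (Pool.Agent.H54.RV.ord_eq_zero P.p _ hne).2 ⟨(P.mem _).1 hu.2.1, (P.mem _).1 hu.2.2⟩
  omega

end Pool.Agent.H20.ZO
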