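import Pool.Agent.H20.ZO.Def
import Pool.Agent.H20.ZO.InfP
import Pool.Agent.H24.VP.PosB
import Pool.Agent.H32.RT.Ww

/-!
# [H20 ZO Pen] THEOREM Z0 (MP_e49dc9_ag): a pencil of degree zero

`pen`: `T(N,A,W) = 0` and `Finb`: `h0 W ≤ 1`.
PROOF. All primes `Y` in an effective `D ~ W` have `T(N,A,Y) = 0` and `T(Y,A,A) ≤ T(W,A,A)` (sum of terms `≥ 0`).  If `s₀, s₁` are independent sections, `f = s₁ / s₀` is transcendental over `k`
(`k` algebraically closed) and for infinitely many `c ∈ k` there is a prime `Y_c` with `f - c` in the maximal ideal of its local ring (`inf_prm`, H20/ZO/InfP.lean) and then `Y_c` is in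
the divisor of the section `s₁ - c s₀` or (finitely many) in the divisor of `s₀`.  Different `c` have different `Y_c`.
-/

set_option autoImplicit false

namespace Pool.Agent.H20.ZO

open Pool.Agent.H54.RV Pool.Agent.H83.TU Pool.Agent.H83.TK Pool.Agent.H20.TD Pool.Agent.H20.TP
open Pool.Agent.H24.VP (RR chS chi)

variable {k K : Type} [Field k] [Field K] [Algebra k K] {X : Mod k K}
  {T : Cart X → Cart X → Cart X → ℝ} {l : Cart X → ℝ} {c : ℝ}

private theorem trans_of [IsAlgClosed k] {f : K} (hf : ∀ c : k, f ≠ algebraMap k K c) : Transcendental k f := by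
  intro h1
  have h2 : IsIntegral k f := h1.isIntegral
  have h3 := IsAlgClosed.degree_eq_one_of_irreducible k (minpoly.irreducible h2)
  obtain ⟨c, hc⟩ := (minpoly.mem_range_of_degree_eq_one k f h3)
  exact hf c hc.symm

theorem pen [CharZero k] [IsAlgClosed k] [T0Space X.P] (h : Hyp X) (hr : RR T l c) {A N W : Cart X} (hZ : Zn T l A N)
    (hfin : Finb T A N) (hW : T N A W = 0) : h0 W 1 ≤ 1 := by
  by_contra hlt
  push Not at hlt
  have hX := h.var
  have hfd : Module.Finite k (secL W 1) := Pool.Agent.H24.TK.fd hX h.gen hZ.amp W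
  -- two sections
  obtain ⟨s₀, s₁, hs0, hs1, h00, hne⟩ : ∃ s₀ s₁ : K, s₀ ∈ secL W 1 ∧ s₁ ∈ secL W 1 ∧ s₀ ≠ 0 ∧
      ∀ a : k, s₁ / s₀ ≠ algebraMap k K a := by
    have h1 : 0 < h0 W 1 := by omega
    obtain ⟨s₀, h2, h3⟩ := ex_sec h1
    by_contra hcon
    push Not at hcon
    have h4 : secL W 1 ≤ Submodule.span k {s₀} := by
      intro s hs
      obtain ⟨a, ha⟩ := hcon s₀ s h3 hs h2
      rw [Submodule.mem_span_singleton]
      refine ⟨a, ?_⟩
      rw [Algebra.smul_def, ← ha, div_mul_cancel₀ _ h2]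
    have h5 : h0 W 1 ≤ 1 := by
      unfold h0
      exact (Submodule.finrank_mono h4).trans (finrank_span_singleton h2).le
    omega
  obtain ⟨f, hf⟩ : ∃ f, f = s₁ / s₀ := ⟨_, rfl⟩
  have htr : Transcendental k f := by
    rw [hf]
    exact trans_of hne
  have hinf := inf_prm h htr
  obtain ⟨Sf, hSf⟩ : ∃ Sf : Set k, Sf = {c : k | ∃ P : PDiv X, f ∈ X.O P.η ∧ ¬ Un (X.O P.η) (f - algebraMap k K c)} :=
    ⟨_, rfl⟩
  rw [← hSf] at hinf
  have hP : ∀ c ∈ Sf, ∃ P : PDiv X, f ∈ X.O P.η ∧ ¬ Un (X.O P.η) (f - algebraMap k K c) := by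
    intro c hc
    rw [hSf] at hc
    exact hc
  obtain ⟨c₀, hc₀⟩ := hinf.nonempty
  have hne0 : Nonempty (PDiv X) := ⟨(hP c₀ hc₀).choose⟩
  choose! P hP1 hP2 using hP
  refine hinf (Set.Finite.of_finite_image (f := fun c => (P c).η) ((hfin (T A A W)).subset ?_) ?_)
  · rintro _ ⟨c, hc, rfl⟩
    refine ⟨P c, rfl, ?_⟩
    obtain ⟨S, hS⟩ := pdiv_spr h (P c)
    refine ⟨S, hS, ?_⟩
    have hAn : ∀ B : Cart X, Ample B → Ample (B * A) := fun B hB => Pool.Agent.H83.TU.ample_mul hX B A hB hZ.amp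
    have hfc : f - algebraMap k K c ≠ 0 := fun h1 => htr (by
      rw [sub_eq_zero.1 h1]
      exact isAlgebraic_algebraMap c)
    obtain ⟨s, hs⟩ : ∃ s, s = s₀ * (f - algebraMap k K c) := ⟨_, rfl⟩
    have hsne : s ≠ 0 := by
      rw [hs]
      exact mul_ne_zero h00 hfc
    have hsW : s ∈ secL W 1 := by
      have h1 : s = s₁ - c • s₀ := by
        rw [hs, hf, Algebra.smul_def, mul_sub, mul_div_cancel₀ _ h00]
        ring
      rw [h1]
      exact (secL W 1).sub_mem hs1 ((secL W 1).smul_mem _ hs0)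
    have hE : Effective (prin X s hsne * W) := by
      intro x
      have h1 := hsW x
      rw [pow_one] at h1
      rw [mul_eq]
      exact h1
    have hun : ¬ Un (X.O (P c).η) ((prin X s hsne * W).eq (P c).η) := by
      intro hu
      apply hP2 c hc
      have h1 := hs0 (P c).η
      rw [pow_one] at h1
      have h2 : (prin X s hsne * W).eq (P c).η = (s₀ * W.eq (P c).η) * (f - algebraMap k K c) := by
        rw [mul_eq]
        change s * _ = _
        rw [hs]
        ring
      rw [h2] at hu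
      exact ((un_mul_iff h1 ((X.O _).sub_mem (hP1 c hc) ((X.O _).algebraMap_mem c))).1 hu).2
    have hE2 := Pool.Agent.H32.RT.div_spr hX hS hE hun
    have e1 : T N A (prin X s hsne * W) = 0 := by
      rw [hr.tri.add3, hW, add_zero, hr.tri.s23, hr.tri.s12]
      exact Pool.Agent.H24.VP.numz_T h hr (numz_prin s hsne) N A
    have e2 : 0 ≤ T N A (prin X s hsne * W * S⁻¹) := Pool.Agent.H24.VP.nn_eff h hr (fun B hB => hZ.nef B hB) hZ.amp hE2
    have e3 : 0 ≤ T N A S := Pool.Agent.H24.VP.nn_prm h hr (fun B hB => hZ.nef B hB) hZ.amp (P c) hS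
    rw [hr.tri.add3, hr.tri.inv3, e1] at e2
    have e4 : T A A (prin X s hsne * W) = T A A W := by
      rw [hr.tri.add3, hr.tri.s23, hr.tri.s12, Pool.Agent.H24.VP.numz_T h hr (numz_prin s hsne) A A, zero_add]
    have e5 : 0 ≤ T A A (prin X s hsne * W * S⁻¹) := Pool.Agent.H24.VP.nn_eff h hr hAn hZ.amp hE2
    rw [hr.tri.add3, hr.tri.inv3, e4] at e5
    refine ⟨by linarith, ?_⟩
    rw [hr.tri.s12, hr.tri.s23]
    linarith
  · intro c hc c' hc' hcc
    by_contra hne'
    have h1 : (P c).η = (P c').η := hcc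
    have h2 := hP2 c' hc'
    rw [← h1] at h2
    have h3 := hP2 c hc
    have hmem := hP1 c hc
    have h4 : Un (X.O (P c).η) ((f - algebraMap k K c) + -(f - algebraMap k K c')) := by
      have h5 : (f - algebraMap k K c) + -(f - algebraMap k K c') = algebraMap k K (c' - c) := by
        rw [map_sub]
        ring
      rw [h5]
      have h6 : c' - c ≠ 0 := fun h7 => hne' (sub_eq_zero.1 h7).symm
      refine ⟨fun h7 => h6 ((algebraMap k K).injective (by rw [h7, map_zero])), (X.O _).algebraMap_mem _, ?_⟩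
      rw [← map_inv₀]
      exact (X.O _).algebraMap_mem _
    have m1 : f - algebraMap k K c ∈ X.O (P c).η := (X.O _).sub_mem hmem ((X.O _).algebraMap_mem c)
    have m2 : f - algebraMap k K c' ∈ X.O (P c).η := (X.O _).sub_mem hmem ((X.O _).algebraMap_mem c')
    rcases un_add m1 ((X.O _).neg_mem m2) h4 with h5 | h5
    · exact h3 h5
    · apply h2
      refine ⟨fun h6 => h5.1 (by rw [h6, neg_zero]), m2, ?_⟩
      have h6 := (X.O _).neg_mem h5.2.2
      rwa [inv_neg, neg_neg] at h6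

end Pool.Agent.H20.ZO
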