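import Pool.Agent.H20.ZO.Gam
import Pool.Agent.H20.ZO.Pen
import Pool.Agent.H20.TP.Lb

/-!
# [H20 ZO Sec2] THEOREM Z0 (MP_e49dc9_ag): two sections of degree zero on the horizontal surface

`sec2`: `Hor` for some `G`.
PROOF.  `Γ` from `gam`, `z = P.η`.
(a) `T(N,Γ,Γ) < 0`: `lb` (H20/TP/Lb) with `e = cR N`, `W = N ^ n`: `chS T l Γ (N ^ n) = - n T(N,Γ,Γ) / 2 + O(1)`: `G = N ^ n`, `T(N,N,Γ) = 0`.
(b) `T(N,Γ,Γ) = 0`: `glb` with `u = Γ`: `h0 (Γ ^ j N ^ n) ≥ n l(N) - C` for a fixed `j`; `h0 (N ^ n) ≤ 1` (`pen`, `T(N,A,N) = 0`); `h0 (W) ≤ h0 (W Γ⁻¹) + hz z W` (`ex_le`):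
`h0 (Γ ^ j N ^ n) ≤ 1 + ∑_(1 ≤ i ≤ j) hz z (Γ ^ i N ^ n)`, so one `i` has `hz ≥ 2`; `T(N, Γ ^ i N ^ n, Γ) = 0`.
-/

set_option autoImplicit false

namespace Pool.Agent.H20.ZO

open Pool.Agent.H54.RV Pool.Agent.H83.TU Pool.Agent.H83.TK Pool.Agent.H20.TD Pool.Agent.H20.TP
open Pool.Agent.H24.VP (RR chS chi)

variable {k K : Type} [Field k] [Field K] [Algebra k K] {X : Mod k K}
  {T : Cart X → Cart X → Cart X → ℝ} {l : Cart X → ℝ} {c : ℝ}

theorem sec2 [CharZero k] [IsAlgClosed k] [T0Space X.P] (h : Hyp X) (hr : RR T l c) {r : ℕ}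
    {ν : Cart X →* Multiplicative (Fin r → ℤ)} (hν : NumR ν) {A N F : Cart X} (hZ : Zn T l A N)
    (hfin : Finb T A N) (hF : Fcl T A N F) : ∃ (z : X.P) (Γ G : Cart X), Hor h.var T A N F z Γ G := by
  obtain ⟨P, Γ, hS, h1, h2, h3⟩ := gam h hr hZ hF
  have htr : Algebra.trdeg k (X.kap P.η) = 2 := trdeg_pdiv h P
  have hNN : ∀ U, T N U N = 0 := fun U => by rw [hr.tri.s23, hZ.sq]
  rcases lt_or_eq_of_le h2 with h4 | h4
  · -- negative self-intersection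
    have he : ∀ x, Cv P.η x → 0 ≤ dR hν h.var x (cR ν N) := by
      intro x hx
      rw [dR_ci hν h.var h.amp hx.2]
      have h5 : 0 ≤ ((dz h.var x N : ℤ) : ℝ) := by
        refine Pool.Agent.H32.ZO.lin_nn (a := ((dz h.var x A : ℤ) : ℝ)) fun n => ?_
        have h6 := dz_pos h.var h.amp hx.2 (res_ample h.var x _ (Pool.Agent.H24.VP.nf_pow hZ.amp hZ.nef n))
        have h7 : (dz h.var x (A * N ^ n) : ℤ) = dz h.var x A + n * dz h.var x N := by
          rw [dz_mul h.var h.amp hx.2, dz_pow h.var h.amp hx.2]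
        have h8 : (0 : ℤ) < dz h.var x A + n * dz h.var x N := h7 ▸ h6
        have h9 : (0 : ℝ) < ((dz h.var x A + n * dz h.var x N : ℤ) : ℝ) := by exact_mod_cast h8
        push_cast at h9
        exact h9.le
      exact h5
    obtain ⟨C, hC⟩ := lb h hr hν htr hS he 0
    obtain ⟨n, hn⟩ := exists_nat_gt ((C + 1 - (T Γ Γ Γ / 6 + l Γ)) / (- T N Γ Γ / 2))
    rw [div_lt_iff₀ (by linarith)] at hn
    have h5 := hC n (N ^ n) (Nat.cast_nonneg n) (by
      have : cR ν (N ^ n) = (n : ℝ) • cR ν N := by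
        funext i
        simp [Pool.Agent.H20.TP.cR, rv, ci, map_pow, toAdd_pow]
      rw [this, sub_self, norm_zero])
    have h6 : chS T l Γ (N ^ n) = - n * T N Γ Γ / 2 + (T Γ Γ Γ / 6 + l Γ) := by
      unfold chS
      rw [hr.tri.pow, hr.tri.pow2, hr.tri.pow, hZ.sq]
      ring
    rw [h6] at h5
    have h7 : (1 : ℝ) < (hz h.var P.η (N ^ n) : ℝ) := by linarith
    have h8 : 1 < hz h.var P.η (N ^ n) := by exact_mod_cast h7
    refine ⟨P.η, Γ, N ^ n, htr, hS, h1, h3, h8, ?_⟩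
    rw [hr.tri.pow2, hZ.sq, mul_zero]
  · -- self-intersection zero
    have hpos : 0 < T N Γ A := by
      rw [hr.tri.s23]
      exact h3
    obtain ⟨j₀, hj⟩ := glb h hr hZ hpos
    obtain ⟨C, n₀, hn⟩ := hj j₀ le_rfl
    obtain ⟨m, hm⟩ := exists_nat_gt ((C + j₀ + 1) / l N)
    rw [div_lt_iff₀ hZ.lpos] at hm
    obtain ⟨n, hne⟩ : ∃ n, n = max n₀ m := ⟨_, rfl⟩
    by_contra hc
    have hz1 : ∀ i : ℕ, hz h.var P.η (Γ ^ i * N ^ n) ≤ 1 := by
      intro i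
      by_contra h5
      push Not at h5
      refine hc ⟨P.η, Γ, Γ ^ i * N ^ n, htr, hS, h1, h3, h5, ?_⟩
      rw [hr.tri.add2, hr.tri.pow2, hr.tri.pow2, h4, hZ.sq]
      ring
    have hb : ∀ i : ℕ, h0 (Γ ^ i * N ^ n) 1 ≤ 1 + i := by
      intro i
      induction i with
      | zero =>
        rw [pow_zero, one_mul, add_zero]
        refine pen h hr hZ hfin ?_
        rw [hr.tri.pow3, hNN, mul_zero]
      | succ i ih =>
        have := Pool.Agent.H24.TK.fd h.var h.gen hZ.amp (Γ ^ (i + 1) * N ^ n)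
        have := Pool.Agent.H24.TK.fd (isVar_sub h.var P.η) ⟨_, gen_sub h.var P.η⟩ (res_ample h.var P.η _ hZ.amp)
          (resD h.var P.η (Γ ^ (i + 1) * N ^ n))
        have h5 := ex_le h.var hS (Γ ^ (i + 1) * N ^ n) 1
        have h6 : (Γ ^ (i + 1) * N ^ n) ^ 1 * Γ⁻¹ = Γ ^ i * N ^ n := by
          rw [pow_one, pow_succ, mul_right_comm, mul_inv_cancel_right]
        rw [h6] at h5
        have h7 := hz1 (i + 1)
        unfold hz at h7
        omega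
    have h5 := hn n (by rw [hne]; exact le_max_left _ _)
    rw [h4, mul_zero, zero_div, zero_add] at h5
    have h6 : (m : ℝ) ≤ n := by
      rw [hne]
      exact_mod_cast le_max_right n₀ m
    have h7 := mul_le_mul_of_nonneg_right h6 hZ.lpos.le
    have h8 : (h0 (Γ ^ j₀ * N ^ n) 1 : ℝ) ≤ 1 + j₀ := by exact_mod_cast hb j₀
    linarith

end Pool.Agent.H20.ZO
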