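import Pool.Agent.H20.ZO.Bnd
import Pool.Agent.H20.ZO.Sec2
import Pool.Agent.H20.ZO.JJ
import Pool.Agent.H20.ZO.Coef
import Pool.Agent.H20.ZO.Mov

/-!
# [H20 ZO End] THEOREM Z0 (MP_e49dc9_ag): the end

`fin_false`: `Finb` and a class `F` are contradictory.
PROOF.  `sec2`: `z, Γ, G`; `bnd`: `ψ`.  `glb` for `F` (`T(N,F,A) > 0`): `B = F ^ j`, `h0 (B N ^ n) ≥ n l(N) - C`.  `u` from `bnd` for `B`; `m` with `m + 1 > T(N,A,B)`; `n` with
`h0 (B N ^ n) > (m + 1) u`; `L = B N ^ n`.  `T(N,F,L ^ i) = 0 < T(N,F,Γ)`: no section of `L ^ i` vanishes along `Γ` (`fac_eff`, `Fcl.nn`).  `coef`: `t`; `jj` for `V = H⁰(L)`: infinitely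
many primes `S` with `L S ^ (-(m + 1))` effective: `(m + 1) T(N,A,S) ≤ T(N,A,L) = T(N,A,B)`, so `T(N,A,S) = 0` (an integer `≥ 0`), and `T(S,A,A) ≤ T(L,A,A)`: contradiction to `Finb`.
-/

set_option autoImplicit false

namespace Pool.Agent.H20.ZO

open Pool.Agent.H54.RV Pool.Agent.H83.TU Pool.Agent.H83.TK Pool.Agent.H20.TD Pool.Agent.H20.TP
open Pool.Agent.H24.VP (RR chS chi)

variable {k K : Type} [Field k] [Field K] [Algebra k K] {X : Mod k K}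
  {T : Cart X → Cart X → Cart X → ℝ} {l : Cart X → ℝ} {c : ℝ}

/-- a nonzero section of a class `W` with `T(N,F,W) = 0` does not vanish along a surface `Γ` with `T(N,F,Γ) > 0` -/
theorem unit_at [CharZero k] [T0Space X.P] (h : Hyp X) (hr : RR T l c) {A N F : Cart X} (hF : Fcl T A N F)
    {z : X.P} {Γ W : Cart X} (hΓ : SPr X z Γ) (hpos : 0 < T N F Γ) (hW : T N F W = 0) {s : K} (hs : s ∈ secL W 1)
    (h0 : s ≠ 0) : Un (X.O z) (s * W.eq z) := by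
  by_contra hun
  have h1 := div_spr h.var hΓ (eff_sec hs h0) hun
  have h2 := feff h hr hF h1
  rw [hr.tri.add3, hr.tri.inv3, T3_prin h hr, hW] at h2
  linarith

theorem fin_false [CharZero k] [IsAlgClosed k] [T0Space X.P] (h : Hyp X) (hr : RR T l c) {r : ℕ}
    {ν : Cart X →* Multiplicative (Fin r → ℤ)} (hν : NumR ν) {A N F : Cart X} (hZ : Zn T l A N)
    (hfin : Finb T A N) (hF : Fcl T A N F) : False := by
  obtain ⟨z, Γ, G, hH⟩ := sec2 h hr hν hZ hfin hF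
  obtain ⟨ψ, hψ, hbnd⟩ := bnd h hr hZ hH
  obtain ⟨j, hj⟩ := glb h hr hZ (u := F) (by rw [hr.tri.s23]; exact hF.pos)
  obtain ⟨C, n₀, hn⟩ := hj j le_rfl
  rw [hF.sq, mul_zero, zero_div, zero_add] at hn
  obtain ⟨u, hu⟩ := hbnd (F ^ j)
  obtain ⟨m, hm⟩ := exists_nat_gt (T N A (F ^ j))
  obtain ⟨n, hn1, hn2⟩ : ∃ n : ℕ, n₀ ≤ n ∧ ((m + 1) * u : ℝ) < n * l N - C := by
    obtain ⟨n, hn⟩ := exists_nat_gt (max (n₀ : ℝ) (((m + 1) * u + C) / l N))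
    refine ⟨n, by exact_mod_cast (le_max_left _ _).trans hn.le, ?_⟩
    have h1 := (le_max_right _ _).trans_lt hn
    rw [div_lt_iff₀ hZ.lpos] at h1
    linarith
  have hL : ((m + 1) * u : ℝ) < h0 (F ^ j * N ^ n) 1 := hn2.trans_le (hn n hn1)
  have hL' : (m + 1) * u < h0 (F ^ j * N ^ n) 1 := by exact_mod_cast hL
  have hNF : T N F (F ^ j * N ^ n) = 0 := by
    rw [hr.tri.add3, hr.tri.pow3, hr.tri.pow3, hF.sq, hr.tri.s23, hZ.sq, mul_zero, mul_zero, add_zero]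
  have hNA : T N A (F ^ j * N ^ n) = T N A (F ^ j) := by
    rw [hr.tri.add3, hr.tri.pow3, hr.tri.pow3 (C := N), hr.tri.s23 N A N, hZ.sq, mul_zero, add_zero]
  obtain ⟨t, ht, hrel⟩ := coef h.var (z := z) (L := F ^ j * N ^ n) (fun i s hs hs0 =>
    unit_at h hr hF hH.spr hH.hor (by rw [hr.tri.pow3, hNF, mul_zero]) hs hs0) hψ
  have hinf := jj h (Algebra.IsIntegral.isIntegral t) ht (L := F ^ j * N ^ n) (V := secL (F ^ j * N ^ n) 1) le_rfl (u := u) (m := m) (fun s hs => by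
    obtain ⟨p, hp, h2⟩ := hu n (fun i => X.rs z (s i * (F ^ j * N ^ n).eq z ^ 1)) (fun i =>
      (resS h.var z (F ^ j * N ^ n) 1 ⟨s i, hs i⟩).2)
    refine ⟨p, hp, hrel _ s p hs ?_⟩
    simpa only [pow_one] using h2) hL'
  refine mov_false h hr hZ hfin (L := F ^ j * N ^ n) (m := m) (by rw [hNA]; linarith) (hinf.mono ?_)
  rintro w ⟨P, hP, S, hS, s, -, hs0, hs⟩
  exact ⟨P, hP, S, hS, s, hs0, hs⟩

end Pool.Agent.H20.ZO
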