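import Pool.Agent.H20.ZO.Glb
import Pool.Agent.H20.RT.Hdr
import Pool.Agent.H24.VP.PosB
import Pool.Agent.H32.ZO.Hod

/-!
# [H20 ZO Gam] THEOREM Z0 (MP_e49dc9_ag): the horizontal surface

`gam`: a prime divisor `Γ` with `T(N,F,Γ) > 0`, `T(N,Γ,Γ) ≤ 0`, `T(N,A,Γ) > 0`.
PROOF.  `g = T(N,.,.)`, integral, `g(A,A) > 0`, Hodge (for the nef class `N`: from `hdg_L` on `N ^ j B`, or `hi_real`).  `W = A ^ (2 g(A,F)) * F ^ (- g(A,A))`: `g(W,W) = 0`,
`g(W,A) = g(A,F) g(A,A) > 0`, `g(F,W) = 2 g(A,F) ² > 0`.  `glb` for `W`: `W ^ j N ^ n` has sections, so (up to `prin` and a trivial divisor, `fac_eff`) it is a product of primes `E i`.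
`0 = j ² g(W,W) = ∑ g(W ^ j, E i)`.  If `g(F,E i) = 0`: `g(W,E i) = 2 g(A,F) g(A,E i) ≥ 0`.  As `∑ g(F,E i) = j g(F,W) > 0` (terms `≥ 0`), if all `E i` with `g(F,E i) > 0` had `g(W,E i) > 0`
the sum would be positive.  So `g(F,Γ) > 0`, `g(W,Γ) ≤ 0` for one `Γ`; `g(A,Γ) ≥ 0`, `≠ 0` (`g(A,Γ) = 0` implies `g(.,Γ) = 0`).  `g(Γ,Γ) > 0` is impossible: `g(W,W) = 0`, `g(W,A) > 0`,
`g(Γ,Γ) > 0`, `g(Γ,A) > 0` imply `g(W,Γ) > 0` (light cone).
-/

set_option autoImplicit false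

namespace Pool.Agent.H20.ZO

open Pool.Agent.H54.RV Pool.Agent.H83.TU Pool.Agent.H83.TK Pool.Agent.H20.TD Pool.Agent.H20.TP
open Pool.Agent.H24.VP (RR chS chi)

variable {k K : Type} [Field k] [Field K] [Algebra k K] {X : Mod k K}
  {T : Cart X → Cart X → Cart X → ℝ} {l : Cart X → ℝ} {c : ℝ}

theorem gam [CharZero k] [IsAlgClosed k] [T0Space X.P] (h : Hyp X) (hr : RR T l c) {A N F : Cart X} (hZ : Zn T l A N)
    (hF : Fcl T A N F) : ∃ (P : PDiv X) (Γ : Cart X), SPr X P.η Γ ∧ 0 < T N F Γ ∧ T N Γ Γ ≤ 0 ∧ 0 < T N A Γ := by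
  have hi := Pool.Agent.H24.VP.t_int hr h.amp
  obtain ⟨a, ha⟩ := hi N A F
  obtain ⟨b, hb⟩ := hi N A A
  have hNN : ∀ U, T N U N = 0 := fun U => by rw [hr.tri.s23, hZ.sq]
  have hFA : T N F A = T N A F := hr.tri.s23 N F A
  obtain ⟨W, hW⟩ : ∃ W : Cart X, W = A ^ (2 * a) * F ^ (-b) := ⟨_, rfl⟩
  have w3 : ∀ V : Cart X, T N W V = 2 * T N A F * T N A V - T N A A * T N F V := by
    intro V
    rw [hW, hr.tri.add2, hr.tri.zpow2, hr.tri.zpow2, ha, hb]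
    push_cast
    ring
  have hWA : T N W A = T N A F * T N A A := by
    rw [w3, hFA]
    ring
  have hWF : T N W F = 2 * T N A F ^ 2 := by
    rw [w3, hF.sq]
    ring
  have hWW : T N W W = 0 := by
    rw [w3, hr.tri.s23 N A W, hr.tri.s23 N F W, hWA, hWF]
    ring
  have hpos : 0 < T N W A := by
    rw [hWA]
    exact mul_pos hF.pos hZ.pos
  obtain ⟨j₀, hj⟩ := glb h hr hZ hpos
  obtain ⟨j, hj1⟩ : ∃ j, j = max j₀ 1 := ⟨_, rfl⟩
  obtain ⟨C, n₀, hn⟩ := hj j (by rw [hj1]; exact le_max_left _ _)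
  have hj2 : (1 : ℝ) ≤ j := by
    rw [hj1]
    exact_mod_cast le_max_right j₀ 1
  obtain ⟨m, hm⟩ := exists_nat_gt (C / l N)
  rw [div_lt_iff₀ hZ.lpos] at hm
  have hsec : 0 < h0 (W ^ j * N ^ (max n₀ m)) 1 := by
    have h1 := hn (max n₀ m) (le_max_left _ _)
    rw [hWW, mul_zero, zero_div, zero_add] at h1
    have h2 : (m : ℝ) ≤ (max n₀ m : ℕ) := by exact_mod_cast le_max_right n₀ m
    have h3 := mul_le_mul_of_nonneg_right h2 hZ.lpos.le
    have h4 : (0 : ℝ) < h0 (W ^ j * N ^ (max n₀ m)) 1 := by linarith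
    exact_mod_cast h4
  obtain ⟨Ls, hL, hsum⟩ := Pool.Agent.H32.ZO.eff_prm h hr hsec
  have e : ∀ V : Cart X, T N V (W ^ j * N ^ (max n₀ m)) = j * T N V W := by
    intro V
    rw [hr.tri.add3, hr.tri.pow3, hr.tri.pow3, hNN]
    ring
  have sF := hsum N F
  have sW := hsum N W
  rw [e, hr.tri.s23 N F W, hWF] at sF
  rw [e, hWW, mul_zero] at sW
  obtain ⟨p, hp, hp1, hp2⟩ : ∃ p ∈ Ls, 0 < T N F p.2 ∧ T N W p.2 ≤ 0 := by
    by_contra hc
    push Not at hc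
    have k1 : ∀ p ∈ Ls, 0 ≤ T N F p.2 := fun p hp => hF.nn p.1 p.2 (hL p hp)
    have k2 : ∀ p ∈ Ls, 0 ≤ T N W p.2 := by
      intro p hp
      rcases lt_or_eq_of_le (k1 p hp) with h1 | h1
      · exact (hc p hp h1).le
      · rw [w3, ← h1]
        have h2 := Pool.Agent.H24.VP.nn_prm h hr hZ.nef hZ.amp p.1 (hL p hp)
        have h3 := mul_nonneg hF.pos.le h2
        linarith
    have k3 : ∀ p ∈ Ls, T N W p.2 = 0 := by
      intro p hp
      have h1 : ∀ x ∈ (Ls.map fun p => T N W p.2), 0 ≤ x := by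
        intro x hx
        obtain ⟨q, hq, rfl⟩ := List.mem_map.1 hx
        exact k2 q hq
      have h2 := List.single_le_sum h1 (T N W p.2) (List.mem_map.2 ⟨p, hp, rfl⟩)
      exact le_antisymm (by linarith) (k2 p hp)
    have k4 : ∀ p ∈ Ls, T N F p.2 = 0 := by
      intro p hp
      rcases lt_or_eq_of_le (k1 p hp) with h1 | h1
      · exact absurd (k3 p hp) (hc p hp h1).ne'
      · exact h1.symm
    have k5 : (Ls.map fun p => T N F p.2).sum = 0 := by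
      refine List.sum_eq_zero fun x hx => ?_
      obtain ⟨q, hq, rfl⟩ := List.mem_map.1 hx
      exact k4 q hq
    rw [k5] at sF
    have : 0 < (j : ℝ) * (2 * T N A F ^ 2) := by
      have := hF.pos
      positivity
    linarith
  have hα : 0 ≤ T N A p.2 := Pool.Agent.H24.VP.nn_prm h hr hZ.nef hZ.amp p.1 (hL p hp)
  have hα' : 0 < T N A p.2 := by
    refine lt_of_le_of_ne hα fun h1 => ?_
    have := Pool.Agent.H32.ZO.zero_prm h hr hZ.nef hZ.amp p.1 (hL p hp) h1.symm F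
    linarith
  exact ⟨p.1, p.2, hL p hp, hp1, Pool.Agent.H32.ZO.light h hr hZ.nef hZ.pos hWW hpos hα' hp2, hα'⟩

end Pool.Agent.H20.ZO
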