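import Pool.Agent.H20.ZO.Def
import Pool.Agent.H24.RG.Glb

/-!
# [H20 ZO Glb] THEOREM Z0 (MP_e49dc9_ag): (GLB), the lower bound without nefness

`glb`: `0 < T(N,u,A)`: for `j ≥ j₀`: `h0 (u ^ j N ^ n) ≥ n (j ² T(N,u,u) / 2 + l N) - C`, `n ≥ n₀`.

PROOF. `exists_sf`: `H = A ^ m`, generic surface `S`, `b = T(.,.,H)`, `β = b(N,H)`.  Replace `u` by `u ^ j` with `t := b(N,u) > (3/2) β`.  `M = u N ^ n = H M'`:
`T(M',H,H) > T(H,H,H)`, `chS M' = n (t - 3 β / 2) + O(1) > 0` for large `n`, so `0 < h0 (ψ M')` (`t4`), `dec`: `M' = ∏ E j`, classes of curves; `Z s = H ∏_(j ∈ s) E j`,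
`R s = ∏_(j ∉ s) E j`.  As `ram_con`, `ram`, `low_uni` (H24/ZL/Ram.lean) except at stuck places: `b(Z s, E j) ≤ 0` for all `j ∉ s`, so `b(Z s, R s) ≤ 0`.  Then (helper24's
computation, H24/RL/Con2): w.l.o.g. `b(u,u) > 0` (replace `u` by `u N ^ c`).  One `E ∈ {Z s, R s}` has `b(M,E) ≤ 0`, `b(M,E) ≤ b(E,E)`; `e = b(N,E) ≥ 0`, `x = - b(u,E) ≥ n e`;
Hodge in the plane `<N,u>`: `b(E,E) ≤ - 2 e x / t - e ² b(u,u) / t ²`; so `n e ≤ x (1 - 2 e / t)`; `v = E - u / 2`: `b(v,v) > 0`, `b(N,v) < 0`, so `b(H,v) < 0`: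
`b(H,E) < b(H,u) / 2 =: h₀`; `x ≤ K h₀`, so `e = 0` for large `n` (integer).  `E = Z s` is impossible (`b(N,Z s) ≥ β > 0`), so `E = R s`: all the remaining `E j` have
`b(N,E j) = 0` and `∑ b(H,E j) ≤ h₀`.  From there on add, for `s' ⊇ s`, an `E j` with `b(Z s', E j) ≥ - c₁`, `c₁ = K h₀ + h₀ ² / b(H,H)` (the sum over `j ∉ s'` is `b(M,R s') - b(R s',R s') =
b(u,R s') - b(R s',R s')`).  Cost of this step for `e(W) = h0 (ψ W) - chS W`, `W = H ^ i Z s' E`: at most `max (0, - b(W,E)) + b(H,E) + (b(E,E) + b(H,E)) / 2` (`cv_le`, `h0_le_dg` of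
H41/TK/DG, `h0(1_E) ≤ b(H,E)` by H83/RT/Dvd, `cv_num`), and `b(E,E) ≥ - 3 b(H,E)` (`- 2 chi_E = b(E,E) + b(H,E)`, `chi_E ≤ h0(1_E)`), `b(E,E) ≤ b(H,E) ² / b(H,H)`: a constant; and the
cost is `≤ 0` (`cv_shp`) if `i - 1 > c₁`.  At most `h₀` such steps.
-/

set_option autoImplicit false

namespace Pool.Agent.H20.ZO

open Pool.Agent.H54.RV Pool.Agent.H83.TU Pool.Agent.H83.TK Pool.Agent.H20.TD Pool.Agent.H20.TP
open Pool.Agent.H24.VP (RR chS chi)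

variable {k K : Type} [Field k] [Field K] [Algebra k K] {X : Mod k K}
  {T : Cart X → Cart X → Cart X → ℝ} {l : Cart X → ℝ} {c : ℝ}

theorem glb [CharZero k] [T0Space X.P] (h : Hyp X) (hr : RR T l c) {A N u : Cart X} (hZ : Zn T l A N) (hu : 0 < T N u A) :
    ∃ j₀ : ℕ, ∀ j ≥ j₀, ∃ (C : ℝ) (n₀ : ℕ), ∀ n ≥ n₀,
      (n : ℝ) * ((j : ℝ) ^ 2 * T N u u / 2 + l N) - C ≤ h0 (u ^ j * N ^ n) 1 :=
  Pool.Agent.H24.RG.glb' h hr hZ.amp hZ.nef hZ.sq hZ.pos hu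

end Pool.Agent.H20.ZO
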